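import Pool.Agent.H77.S6C.Ust
import Pool.Agent.H10.S6U.Out

/-!
# The U-step: the local statements (v2.2)

`q` is a fixed base velocity. `V x` is the deficit of the rows of the two plank directions beyond
the natural box of the window `x` and the base velocity `q` (first coordinate to `x + q` digits,
second coordinate, in the own frame, to `x + rot x - k + q` digits, third coordinate to `p` digits;
all at most `p`), given this box, the own slope to as many digits as the box needs, the side label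
`κ` of the windows `v`, the time and the side information. The own slope is rounded: every box with
its own number of digits.

`UVLA`, `UVLB`, `UVLC`: the deficit does not change in the small cells around almost all windows.
`LX`: in every cell `[x, y]` it grows at most by `8 (y - x)`, from above to below.

`T` is the thickness of the planks of `κ`, `p ≤ T + q` the row; for `p > T` the straightness in the
direction of the normals (`NSt`, to `H` digits) is needed beyond the one given by the planks.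
-/

set_option autoImplicit false

namespace Pool.S6V

open Finset Real
open Pool.Agent.H49.Ent Pool.Agent.H32.Dense Pool.STK Pool.KA Pool.KSAT Pool.K2S Pool.PB Pool.KS6
  Pool.S6C Pool.S6U

/-- **Side label** of the windows `w` with a plank: a function of the exact point, and of the line
with its window. -/
structure PkL {J : ℕ} (F : Fam 3 J) (A : F.Ω → Prop) (ς : Fin 3 → Fin 3) (w lam P : ℕ) (C : ℝ)
    {Λ : Type} (κ : F.Ω → Λ) (pl : Λ → Pln) : Prop where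
  inc : ∀ ω, A ω → Inc (ς 0) (ς 1) (ς 2) w lam P C (pl (κ ω)) (F.t ω) (F.x ω) (F.d ω)
  pt : ∃ φ : (Fin 3 → ℤ) × (ℕ × F.ζ) → Λ, ∀ ω, A ω → κ ω = φ (Fam.pt F ω)
  sl : ∃ ψ : ((Fin 3 → ℝ) × (Fin 3 → ℝ)) × F.ζ × ℕ → Λ, ∀ ω, A ω → κ ω = ψ (slam F w ω)

/-- **Own slopes**: the slopes of the fans at exact points, the fans are straight to `L` digits in
the coordinates `ς 0`, `ς 1`. -/
structure OwnS {J : ℕ} (F : Fam 3 J) (A : F.Ω → Prop) (ς : Fin 3 → Fin 3) (L : ℕ) (C : ℝ)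
    (al : F.Ω → ℝ) : Prop where
  pt : ∃ φ : (Fin 3 → ℤ) × (ℕ × F.ζ) → ℝ, ∀ ω, A ω → al ω = φ (Fam.pt F ω)
  bd : ∀ ω, A ω → |al ω| ≤ C
  on : ∃ nu : (Fin 3 → ℤ) × (ℕ × F.ζ) → ℝ, ∀ ω, A ω →
    |F.d ω (ς 1) - al ω * F.d ω (ς 0) - nu (Fam.pt F ω)| ≤ C / 2 ^ L

/-- The level of the first coordinate of the natural box. -/
noncomputable def lr (p q : ℝ) (x : ℚ) (J : ℕ) : ℕ :=
  min (⌊(x : ℝ) * J⌋₊ + ⌊q * J⌋₊) ⌊p * J⌋₊

/-- The level of the second coordinate of the natural box. -/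
noncomputable def lu (ρ : Row) (p q k : ℝ) (x : ℚ) (J : ℕ) : ℕ :=
  min (⌊(x : ℝ) * J⌋₊ + ⌊(ρ.rot x - k) * J⌋₊ + ⌊q * J⌋₊) ⌊p * J⌋₊

/-- The number of digits of the slope which the natural box needs. -/
noncomputable def ld (ρ : Row) (p q k : ℝ) (x : ℚ) (J : ℕ) : ℕ :=
  lu ρ p q k x J - lr p q x J

/-- **The deficit beyond the natural box** of the window `x` and the base velocity `q`. -/
noncomputable def Vd {J : ℕ} (F : Fam 3 J) (A : F.Ω → Prop) (ς : Fin 3 → Fin 3) (ρ : Row)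
    (p q k : ℝ) {Λ : Type} (κ : F.Ω → Λ) (pl : Λ → Pln) (al : F.Ω → ℝ) (x : ℚ) : ℝ :=
  F.vdf (Pool.Agent.H49.Ent.cond F.p A True) ς (lr p q x J) (lu ρ p q k x J) ⌊p * J⌋₊
    (ald (ld ρ p q k x J) al) (fun ω => -(pl (κ ω)).s) (fun ω => -(pl (κ ω)).c)
    (fun ω => (Uni.dg (ld ρ p q k x J) al ω, (κ ω, F.W ω)))

/-- **Straightness in the direction of the normals** of the planks: to `H` digits, with a slope
which is at most `1 / 2 ^ K`. (For `H = P - w` the plank gives this itself, with slope `0`.) -/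
def NSt {J : ℕ} (F : Fam 3 J) (A : F.Ω → Prop) (ς : Fin 3 → Fin 3) (K H : ℕ) (C : ℝ)
    {Λ : Type} (κ : F.Ω → Λ) (pl : Λ → Pln) : Prop :=
  ∃ b k : (Fin 3 → ℤ) × (ℕ × F.ζ) → ℝ, ∀ ω, A ω →
    |fn (ς 0) (ς 1) (ς 2) (pl (κ ω)).c (pl (κ ω)).s (F.d ω) - b (Fam.pt F ω) -
      k (Fam.pt F ω) * F.d ω (ς 0)| ≤ C / 2 ^ H ∧ |k (Fam.pt F ω)| ≤ C / 2 ^ K

/-- **The deficits of the windows `x` and `y`** differ at most by `e`, from above to below, for all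
side labels of the windows `v` with a plank of thickness `T`, and for all own slopes. -/
def RDf (S : PCl 3) (i₀ : Fin 3) (ρ : Row) (T p : ℝ) (v : ℚ) (q H : ℝ) (x y : ℚ) (k e : ℝ) :
    Prop :=
  ∀ C : ℝ, 1 ≤ C → Clp S (fun J F A => ∀ ς : Fin 3 → Fin 3, Function.Injective ς → ς 0 = i₀ →
    ∀ (Λ : Type) (κ : F.Ω → Λ) (pl : Λ → Pln) (al : F.Ω → ℝ),
    PkL F A ς ⌊(v : ℝ) * J⌋₊ ⌊(ρ.rot v - k) * J⌋₊ ⌊T * J⌋₊ C κ pl →
    NSt F A ς ⌊(T - v - k) * J⌋₊ ⌊(H - k) * J⌋₊ C κ pl →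
    OwnS F A ς ⌊(ρ.pi - k) * J⌋₊ C al →
    Vd F A ς ρ p q k κ pl al x ≤ Vd F A ς ρ p q k κ pl al y + e * J * Real.log 2)

/-- The same for all small precisions `k`. -/
def RFull (S : PCl 3) (i₀ : Fin 3) (ρ : Row) (T p : ℝ) (v : ℚ) (q H : ℝ) (x y : ℚ) (e : ℝ) :
    Prop :=
  ∃ k₀ : ℝ, 0 < k₀ ∧ ∀ k : ℝ, 0 < k → k ≤ k₀ → RDf S i₀ ρ T p v q H x y k e

/-- The rows of the small cells around `x₀` are full. -/
def RPt (S : PCl 3) (i₀ : Fin 3) (ρ : Row) (T p : ℝ) (v : ℚ) (q H x₀ : ℝ) : Prop :=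
  ∀ η : ℝ, 0 < η → ∃ δ : ℝ, 0 < δ ∧ ∀ x y : ℚ, x₀ - δ < x → (x : ℝ) ≤ x₀ → x₀ ≤ y →
    (y : ℝ) < x₀ + δ → x < y → RFull S i₀ ρ T p v q H x y (η * (y - x))

/-- The hypotheses on the thickness `T`, the row `p`, the window `v` of the side label, the base
velocity `q` and the straightness `H`. In `UVStmt` one has `T = p`, `H = p - v`. -/
structure PV (ρ : Row) (T p : ℝ) (v : ℚ) (q H : ℝ) : Prop where
  p0 : 0 < p
  p1 : p < 1
  T0 : 0 < T
  v0 : 0 < v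
  q0 : 0 ≤ q
  tn : ρ.rot v < ρ.pi
  th : T < ρ.th v
  pT : p ≤ T + q
  HT : T - v ≤ H

/-- **An active place** `q` of the velocities. -/
structure AcP (act : ℚ → ℝ) (q a₀ α : ℝ) : Prop where
  q0 : 0 < q
  q1 : q < 1
  α0 : 0 < α
  slp : Pool.Sel51.Slp act q a₀ α

/-- **(UVLA)** The rows are full in the small cells around almost all windows at which the fans are
straight beyond the direction. -/
def UVLAStmt : Prop :=
  ∀ (S : PCl 3) (a R h₁ : ℝ) (i₀ : Fin 3) (c s₂ : ℝ) (r : ℝ → ℝ) (D : Set ℝ) (σ : ℝ → Row),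
    Cs S a R h₁ i₀ c s₂ r D σ → ∀ (act : ℚ → ℝ) (κ : ℝ), ActD S i₀ act κ →
    ∀ (T p : ℝ) (v : ℚ) (q H : ℝ), PV (σ 1) T p v q H → ∀ a₀ α : ℝ, AcP act q a₀ α →
    ∃ N : Set ℝ, MeasureTheory.volume N = 0 ∧ ∀ x₀ : ℝ, (v : ℝ) < x₀ → x₀ ∉ N → p - x₀ < H →
      (∃ y₀ : ℚ, x₀ < y₀ ∧ (y₀ : ℝ) < 1 ∧ (σ 1).rot y₀ + q < (σ 1).pi ∧
        (y₀ : ℝ) + (σ 1).rot y₀ + q < p) → RPt S i₀ (σ 1) T p v q H x₀

/-- **(UVLB)** Regime beta: the directions have reached the precision `pi`, beyond which the fans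
are two-dimensional. (The natural box of the window `x` and the base velocity `q` is the natural box
of the window `x + q` and the base velocity `0`.) -/
def UVLBStmt : Prop :=
  ∀ (S : PCl 3) (a R h₁ : ℝ) (i₀ : Fin 3) (c s₂ : ℝ) (r : ℝ → ℝ) (D : Set ℝ) (σ : ℝ → Row),
    Cs S a R h₁ i₀ c s₂ r D σ → ∀ (T p : ℝ) (v : ℚ) (q H : ℝ), PV (σ 1) T p v q H →
    ∀ (x₀ : ℝ) (x₁ : ℚ), v < x₁ → (x₁ : ℝ) < x₀ → (σ 1).rot x₁ = (σ 1).pi →
      x₀ + (σ 1).pi + q < p → RPt S i₀ (σ 1) T p v q H x₀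

/-- **(UVLC)** Only the rows of the first coordinate are left. -/
def UVLCStmt : Prop :=
  ∀ (S : PCl 3) (a R h₁ : ℝ) (i₀ : Fin 3) (c s₂ : ℝ) (r : ℝ → ℝ) (D : Set ℝ) (σ : ℝ → Row),
    Cs S a R h₁ i₀ c s₂ r D σ → ∀ (T p : ℝ) (v : ℚ) (q H : ℝ), PV (σ 1) T p v q H →
    ∀ (x₀ : ℝ) (x₁ : ℚ), v < x₁ → (x₁ : ℝ) < x₀ → x₀ + q < p →
      p ≤ (x₁ : ℝ) + (σ 1).rot x₁ + q → RPt S i₀ (σ 1) T p v q H x₀

/-- **(LX)** LEMMA X: jumps of the directions cost no fullness. -/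
def LXStmt : Prop :=
  ∀ (S : PCl 3) (a R h₁ : ℝ) (i₀ : Fin 3) (c s₂ : ℝ) (r : ℝ → ℝ) (D : Set ℝ) (σ : ℝ → Row),
    Cs S a R h₁ i₀ c s₂ r D σ → ∀ (act : ℚ → ℝ) (κ : ℝ), ActD S i₀ act κ →
    ∀ (T p : ℝ) (v : ℚ) (q H : ℝ), PV (σ 1) T p v q H → ∀ a₀ α : ℝ, AcP act q a₀ α →
    ∀ x y : ℚ, v ≤ x → (v < x ∨ p < T + q) → x < y → (y : ℝ) < p → p - x < H →
    ∀ η : ℝ, 0 < η → RFull S i₀ (σ 1) T p v q H x y
        (8 * (y - x) + 2 * max 0 ((σ 1).rot y + q - (σ 1).pi) + η)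

/-- **(UVA)** The assembly. -/
def UVAStmt : Prop := UVLAStmt → UVLBStmt → UVLCStmt → LXStmt → UVStmt

end Pool.S6V
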