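import Pool.Agent.H77.S6C.Row1

/-!
# The row of one cell, in a class
-/

set_option autoImplicit false

namespace Pool.S6V

open Finset Real
open Pool.Agent.H49.Ent Pool.Agent.H32.Dense Pool.STK Pool.KA Pool.KSAT Pool.K2S Pool.PB
  Pool.S6U Pool.S6C Pool.S6D Pool.UST Pool.KA.Vd

/-- The error of the row is small. -/
theorem row_err {η v Z M cw ε nk x₁ γ e₂ K c3 c4 : ℝ} {wa wb st n X x' ql : ℕ}
    (hη : 0 < η) (hη1 : η ≤ 1) (hv : 0 ≤ v) (hγ : 0 < γ) (hγ1 : γ ≤ 1) (hx₁ : 0 < x₁)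
    (hM : M = η / 16) (hcw : cw = γ * M / (32 * (1 + v))) (hε : ε = η / (64 * (1 + v)))
    (hnk : 0 < nk) (hnk1 : nk * (1 + x₁) ≤ η * cw * (γ * M) / 96)
    (he₂1 : e₂ ≤ η * (γ * M) / 128) (hK : 0 ≤ K) (hc3 : 0 ≤ c3) (hZ0 : 0 < Z)
    (hZ : (1 / cw + 4) + K * (16 * (1 + v) / nk + 4 / cw + 1) + (2 / cw + 2) * (K + c3) + c4 ≤
      η / 2 * Z)
    (hw : (wb : ℝ) - wa ≤ 2 * Z) (hn : (n : ℝ) ≤ 2 / cw) (hX : (X : ℝ) ≤ nk * Z)
    (hX2 : nk * Z / 2 ≤ X) (hst : (X : ℝ) ≤ 4 * (1 + v) * st) (hql : (ql : ℝ) ≤ M * Z)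
    (hx' : (x' : ℝ) ≤ x₁ * (nk * Z) + 3 * (e₂ * Z) + 2) (hst0 : 1 ≤ st) :
    ε * (4 * (1 + v)) * (wb - wa + n) + (2 * ql + 6 * n * X + x') * Real.log 2 +
          ((wb - wa : ℝ) / st + 2 * n + 1) * K + (n + 2) * (K + c3) + c4 ≤ η * Z := by
  have hv1 : 0 < 1 + v := by linarith only [hv]
  have hM0 : 0 < M := by rw [hM]; positivity
  have hcw0 : 0 < cw := by rw [hcw]; positivity
  have hP : γ * M ≤ η / 16 := by
    rw [← hM]
    nlinarith only [hM, hη, hγ1, hγ]
  have hP0 : 0 < γ * M := by positivity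
  have hl0 : 0 < Real.log 2 := Real.log_pos (by norm_num)
  have hl1 := log2_lt
  have hst0' : (1 : ℝ) ≤ st := by exact_mod_cast hst0
  have hn0 : (0 : ℝ) ≤ n := Nat.cast_nonneg n
  -- first term
  have t1 : ε * (4 * (1 + v)) * (wb - wa + n) ≤ η * Z / 8 + 1 / cw := by
    have e1 : ε * (4 * (1 + v)) = η / 16 := by
      rw [hε]
      field_simp
      norm_num
    rw [e1]
    have e2 : η / 16 * ((wb : ℝ) - wa + n) ≤ η / 16 * (2 * Z + 2 / cw) :=
      mul_le_mul_of_nonneg_left (by linarith only [hw, hn]) (by positivity)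
    have e3 : η / 16 * (2 / cw) ≤ 1 / cw := by
      have : η / 16 * (2 / cw) = η / 8 * (1 / cw) := by ring
      rw [this]
      have h1 : 0 < 1 / cw := by positivity
      nlinarith only [h1, hη1]
    nlinarith only [e2, e3]
  -- second term
  have hnk2 : nk ≤ η * cw * (γ * M) / 96 := by
    have : nk * 1 ≤ nk * (1 + x₁) := mul_le_mul_of_nonneg_left (by linarith only [hx₁]) hnk.le
    linarith only [hnk1, this]
  exact by
   have hnk3 : nk * x₁ ≤ η * cw * (γ * M) / 96 := by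
     have : nk * x₁ ≤ nk * (1 + x₁) := mul_le_mul_of_nonneg_left (by linarith only) hnk.le
     linarith only [hnk, hnk1]
   have hcw1 : cw ≤ 1 / 32 := by
     rw [hcw, div_le_div_iff₀ (by positivity) (by norm_num)]
     nlinarith only [hη1, hv, hP]
   have hX0 : (0 : ℝ) ≤ X := Nat.cast_nonneg X
   have t2 : 6 * (n : ℝ) * X ≤ η * Z / 128 := by
     have e1 : (n : ℝ) * X ≤ 2 / cw * (nk * Z) := mul_le_mul hn hX hX0 (by positivity)
     have e2 : 2 / cw * (nk * Z) ≤ 2 / cw * (η * cw * (γ * M) / 96 * Z) := by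
       refine mul_le_mul_of_nonneg_left ?_ (by positivity)
       exact mul_le_mul_of_nonneg_right hnk2 hZ0.le
     have e3 : 2 / cw * (η * cw * (γ * M) / 96 * Z) = η * (γ * M) / 48 * Z := by
       field_simp
       ring
     have e4 : η * (γ * M) / 48 * Z ≤ η * (1 / 16) / 48 * Z := by
       refine mul_le_mul_of_nonneg_right ?_ hZ0.le
       refine div_le_div_of_nonneg_right ?_ (by norm_num)
       exact mul_le_mul_of_nonneg_left (by linarith only [hη1, hP]) hη.le
     have e5 : η * (1 / 16) / 48 * Z * 6 = η * Z / 128 := by ring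
     nlinarith only [e1, e2, e3, e4]
   have t3 : (x' : ℝ) ≤ η * Z / 16 + 2 := by
     have e1 : x₁ * (nk * Z) ≤ η * Z / 96 := by
       have h1 : x₁ * (nk * Z) = nk * x₁ * Z := by ring
       rw [h1]
       have h2 : nk * x₁ ≤ η / 96 := by
         refine hnk3.trans ?_
         refine div_le_div_of_nonneg_right ?_ (by norm_num)
         have h3 : cw * (γ * M) ≤ 1 := by
           have : cw * (γ * M) ≤ 1 * 1 := mul_le_mul (by linarith only [hcw0, hcw1]) (by linarith only [hη1, hcw0, hP, hcw1]) hP0.le (by norm_num)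
           linarith only [this]
         have h4 : η * cw * (γ * M) = η * (cw * (γ * M)) := by ring
         rw [h4]
         nlinarith only [hη, h3]
       calc nk * x₁ * Z ≤ η / 96 * Z := mul_le_mul_of_nonneg_right h2 hZ0.le
         _ = η * Z / 96 := by ring
     have e2 : e₂ * Z ≤ η * Z / 128 := by
       have h2 : e₂ ≤ η / 128 := by
         refine he₂1.trans ?_
         refine div_le_div_of_nonneg_right ?_ (by norm_num)
         nlinarith only [hM, hM0, hη, hη1, hP]
       calc e₂ * Z ≤ η / 128 * Z := mul_le_mul_of_nonneg_right h2 hZ0.le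
         _ = η * Z / 128 := by ring
     have e3 : 0 ≤ η * Z := by positivity
     linarith only [hx', e1, e2, e3]
   exact by
    have t4 : (2 * (ql : ℝ) + 6 * n * X + x') * Real.log 2 ≤ η * Z * (1 / 8 + 1 / 128 + 1 / 16) + 2 := by
      have e1 : 2 * (ql : ℝ) ≤ η * Z / 8 := by
        rw [hM] at hql
        linarith only [hql]
      have e2 : (0 : ℝ) ≤ 2 * (ql : ℝ) + 6 * n * X + x' := by positivity
      have e3 : (2 * (ql : ℝ) + 6 * n * X + x') * Real.log 2 ≤
          (2 * (ql : ℝ) + 6 * n * X + x') * 1 := mul_le_mul_of_nonneg_left hl1.le e2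
      linarith only [t2, t3, e1, e3]
    -- third term
    have t5 : ((wb : ℝ) - wa) / st ≤ 16 * (1 + v) / nk := by
      rw [div_le_div_iff₀ (by linarith only [hcw0, hst0', hcw1]) hnk]
      have e1 : nk * Z / 2 ≤ 4 * (1 + v) * st := hX2.trans hst
      nlinarith only [hX2, hst, hnk, hw]
    have t6 : (((wb : ℝ) - wa) / st + 2 * n + 1) * K ≤ K * (16 * (1 + v) / nk + 4 / cw + 1) := by
      rw [mul_comm K]
      refine mul_le_mul_of_nonneg_right ?_ hK
      have : 4 / cw = 2 * (2 / cw) := by ring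
      linarith only [hn, t5, this]
    have t7 : ((n : ℝ) + 2) * (K + c3) ≤ (2 / cw + 2) * (K + c3) :=
      mul_le_mul_of_nonneg_right (by linarith only [hn]) (by linarith only [hK, hc3])
    have e9 : 0 ≤ η * Z := by positivity
    linarith only [hZ, hcw0, t1, hcw1, t4, t6, t7, e9]

/-- **The row of one cell, in a class**, given the frames. -/
def RowStmt (V : Set ℝ) : Prop :=
  ∀ η α v : ℝ, 0 < η → 0 < α → v ∈ V → 0 ≤ v → ∃ e₂ : ℝ, 0 < e₂ ∧
  ∀ (S : PCl 3) (a₁ R : ℝ) (i₀ : Fin 3) (rt act : ℚ → ℝ) (w₀ v₀ q₀ a₀ : ℝ),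
    (∀ (τ : ℝ) (J : ℕ) (F : Fam 3 J) (A : F.Ω → Prop), S.St τ J F A → Fam.Stt F a₁ R τ A) →
    (∀ w : ℚ, 0 ≤ w → w ≤ 1 → PNum S (capS 1 (qRot i₀ 1 w)) (rt w)) →
    (∀ w : ℚ, 0 ≤ w → w ≤ 1 → 0 ≤ rt w) →
    ActN S i₀ act → (∀ q q' : ℚ, 0 ≤ q → q ≤ q' → q' ≤ 1 → act q ≤ act q') →
    0 < w₀ → w₀ < 1 → v₀ < 1 → 0 < q₀ → q₀ < 1 →
    Pool.Sel51.Slp rt w₀ v₀ v → Pool.Sel51.Slp act q₀ a₀ α →
  ∃ L₀ : ℝ, 0 < L₀ ∧ ∀ L B C : ℝ, 0 < L → L ≤ L₀ → Clp S (fun J F A =>
    ∀ (σ : Fin 3 → Fin 3) (wl wa wb : ℕ) (vp : ℕ → ℕ) (kap Hu HN : ℕ)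
      (al nu k b : (Fin 3 → ℤ) × (ℕ × F.ζ) → ℝ) (a : ℕ → F.Ω → ℝ) (s t : F.Ω → ℝ),
      UFr F A σ wl wa wb vp kap Hu HN al nu k b a s t B C → σ 0 = i₀ →
      (w₀ - L) * J ≤ wa → (wb : ℝ) ≤ (w₀ + L) * J → wa + L / 2 * J ≤ wb →
      (∀ w, wa ≤ w → w ≤ wb → |(vp w : ℝ) - (v₀ * J + v * (w - w₀ * J))| ≤ e₂ * L * J) →
      vp wb + L * J ≤ kap → Room (J := J) wb vp kap Hu HN ⌊q₀ * J⌋₊ (2 * L * J) →
      ∀ (K : Type) (Th : F.Ω → K), SLb F A wl Th →
      Det (Pool.Agent.H49.Ent.cond F.p A True) Th (fun ω => (s ω, t ω)) →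
      ∀ N Da Db : ℕ, N ≤ wa + ⌊q₀ * J⌋₊ + kap → wb + vp wb + ⌊q₀ * J⌋₊ + L * J ≤ N →
      vp wa ≤ Da → (Da : ℝ) ≤ vp wa + 3 * (e₂ * L * J) → vp wb ≤ Db → Da ≤ Db →
      F.vdf (Pool.Agent.H49.Ent.cond F.p A True) σ (wa + ⌊q₀ * J⌋₊) (wa + vp wa + ⌊q₀ * J⌋₊) N
          (ald Da (fun ω => al (Fam.pt F ω))) s t
          (fun ω => (Uni.dg Da (fun ω => al (Fam.pt F ω)) ω, (Th ω, F.W ω))) ≤
        F.vdf (Pool.Agent.H49.Ent.cond F.p A True) σ (wb + ⌊q₀ * J⌋₊) (wb + vp wb + ⌊q₀ * J⌋₊) N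
          (ald Db (fun ω => al (Fam.pt F ω))) s t
          (fun ω => (Uni.dg Db (fun ω => al (Fam.pt F ω)) ω, (Th ω, F.W ω))) + η * L * J)

theorem row_cls {V : Set ℝ} (hUs : UsStmt V) : RowStmt V := by
  intro η₁ α v hη₁ hα hvV hv
  obtain ⟨η, hηd⟩ : ∃ η, η = min η₁ 1 := ⟨_, rfl⟩
  have hη : 0 < η := by rw [hηd]; exact lt_min hη₁ one_pos
  have hη1 : η ≤ 1 := by rw [hηd]; exact min_le_right _ _
  have hηη : η ≤ η₁ := by rw [hηd]; exact min_le_left _ _
  have hv1 : 0 < 1 + v := by linarith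
  obtain ⟨ε, hε⟩ : ∃ ε, ε = η / (64 * (1 + v)) := ⟨_, rfl⟩
  have hε0 : 0 < ε := by rw [hε]; positivity
  obtain ⟨n, γ, x₁, hn, hγ, hγ1, hx₁, hUs⟩ := hUs ε α hε0 hα
  obtain ⟨M, hM⟩ : ∃ M, M = η / 16 := ⟨_, rfl⟩
  have hM0 : 0 < M := by rw [hM]; positivity
  have hM1 : M ≤ 1 := by rw [hM]; linarith only [hη1]
  obtain ⟨cw, hcw⟩ : ∃ cw, cw = γ * M / (32 * (1 + v)) := ⟨_, rfl⟩
  have hcw0 : 0 < cw := by rw [hcw]; positivity
  obtain ⟨κ₀, hκ₀, hUs⟩ := hUs v hvV M cw hM0 hcw0
  have hnr : (1 : ℝ) ≤ n := by exact_mod_cast hn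
  have hn0 : (0 : ℝ) < n := by linarith only [hnr]
  obtain ⟨κ, hκ⟩ : ∃ κ, κ = min κ₀ (η * cw * (γ * M) / (96 * n * (1 + x₁))) := ⟨_, rfl⟩
  have hκ0 : 0 < κ := by rw [hκ]; exact lt_min hκ₀ (by positivity)
  have hκ1 : κ ≤ κ₀ := by rw [hκ]; exact min_le_left _ _
  have hκ2 : κ ≤ η * cw * (γ * M) / (96 * n * (1 + x₁)) := by rw [hκ]; exact min_le_right _ _
  obtain ⟨eU, heU, hUs⟩ := hUs κ hκ0 hκ1
  obtain ⟨nk, hnk⟩ : ∃ nk, nk = n * κ := ⟨_, rfl⟩
  have hnk0 : 0 < nk := by rw [hnk]; positivity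
  have hnk1 : nk * (1 + x₁) ≤ η * cw * (γ * M) / 96 := by
    rw [le_div_iff₀ (by positivity)] at hκ2
    rw [hnk, le_div_iff₀ (by norm_num)]
    calc (n : ℝ) * κ * (1 + x₁) * 96 = κ * (96 * n * (1 + x₁)) := by ring
      _ ≤ _ := hκ2
  obtain ⟨e₂, he₂⟩ : ∃ e₂, e₂ = min eU (min (nk / 16) (η * (γ * M) / 128)) := ⟨_, rfl⟩
  exact by
   have he₂0 : 0 < e₂ := by
     rw [he₂]
     exact lt_min heU (lt_min (by positivity) (by positivity))
   have he₂1 : e₂ ≤ eU := by rw [he₂]; exact min_le_left _ _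
   have he₂2 : e₂ ≤ nk / 16 := by
     rw [he₂]; exact (min_le_right _ _).trans (min_le_left _ _)
   have he₂3 : e₂ ≤ η * (γ * M) / 128 := by
     rw [he₂]; exact (min_le_right _ _).trans (min_le_right _ _)
   refine ⟨e₂, he₂0, fun S a₁ R i₀ rt act w₀ v₀ q₀ a₀ b1 b2 b3 b4 b5 b6 b7 b8 b9 b10 b11 b12 => ?_⟩
   obtain ⟨L₀, hL₀, hUs⟩ := hUs S a₁ R i₀ rt act w₀ v₀ q₀ a₀ b1 b2 b3 b4 b5 b6 b7 b8 b9 b10 b11 b12
   refine ⟨L₀, hL₀, fun L B C hL hLL => ?_⟩
   -- the large constant
   obtain ⟨c3, hc3⟩ : ∃ c3, c3 = (3 : ℕ) * Real.log (6 * (1 + 2) + 3) := ⟨_, rfl⟩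
   obtain ⟨c4, hc4⟩ : ∃ c4, c4 = Real.log (4 * 1 + 5) := ⟨_, rfl⟩
   have hc30 : 0 ≤ c3 := by
     rw [hc3]
     have : 0 ≤ Real.log (6 * (1 + 2) + 3) := Real.log_nonneg (by norm_num)
     positivity
   obtain ⟨KB, hKB⟩ : ∃ KB, KB = |K1 (B + 1)| := ⟨_, rfl⟩
   have hKB0 : 0 ≤ KB := by rw [hKB]; exact abs_nonneg _
   obtain ⟨Z1, hZ1⟩ : ∃ Z1, Z1 = ((1 / cw + 4) + KB * (16 * (1 + v) / nk + 4 / cw + 1) +
     (2 / cw + 2) * (KB + c3) + c4) / (η / 2) := ⟨_, rfl⟩
   obtain ⟨Z2, hZ2⟩ : ∃ Z2, Z2 = 2 / M + 2 / κ + 8 * (1 + v) / nk + 8 +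
     4 * (2 * v + 3) / (γ * M) + 2 * (2 * (1 + v) + 1) / M := ⟨_, rfl⟩
   obtain ⟨J₂, hJ₂⟩ := exists_nat_ge ((|Z1| + Z2) / L)
   have hpos : Clp S (fun J F A => 0 < Pe F.p A) :=
     Clp.base 1 one_pos 0 fun J _ F A hA => lt_of_lt_of_le (Real.exp_pos _) (b1 _ _ _ _ hA).2.2.2
   refine Clp.mono (J₂ := J₂) ((hUs L B C hL hLL).and hpos) ?_
   rintro J hJ F A ⟨hU, hA0⟩ σ wl wa wb vp kap Hu HN al nu k b a s t hfr hσ hwa hwb hww hlin hhh hroom K Th
     hTh hst N Da Db hN1 hN2 hDa hDa' hDb hDD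
   exact by
    have hJ0 : (0 : ℝ) ≤ J := Nat.cast_nonneg J
    obtain ⟨Z, hZ⟩ : ∃ Z, Z = L * J := ⟨_, rfl⟩
    have hγM : 0 < γ * M := by positivity
    have hZbig : |Z1| + Z2 ≤ Z := by
      have h1 : (|Z1| + Z2) / L ≤ J := hJ₂.trans (by exact_mod_cast hJ)
      rw [div_le_iff₀ hL] at h1
      rw [hZ]
      linarith only [h1]
    have q1 : 0 < 2 / M := by positivity
    have q2 : 0 < 2 / κ := by positivity
    have q3 : 0 < 8 * (1 + v) / nk := by positivity
    have q4 : 0 < 4 * (2 * v + 3) / (γ * M) := by positivity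
    have q5 : 0 < 2 * (2 * (1 + v) + 1) / M := by positivity
    have q0 := abs_nonneg Z1
    have z1 : 2 ≤ M * Z := by
      have : 2 / M ≤ Z := by linarith only [hZ2, hZbig, q2, q3, q4, q5, q0]
      rw [div_le_iff₀ hM0] at this
      linarith only [this]
    have z2 : 2 ≤ κ * Z := by
      have : 2 / κ ≤ Z := by linarith only [hZ2, hZbig, q1, q3, q4, q5, q0]
      rw [div_le_iff₀ hκ0] at this
      linarith only [this]
    have z3 : 8 * (1 + v) ≤ nk * Z := by
      have : 8 * (1 + v) / nk ≤ Z := by linarith only [hZ2, hZbig, q1, q2, q4, q5, q0]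
      rw [div_le_iff₀ hnk0] at this
      linarith only [this]
    have z4 : 4 * (2 * v + 3) ≤ γ * M * Z := by
      have : 4 * (2 * v + 3) / (γ * M) ≤ Z := by linarith only [hZ2, hZbig, q1, q2, q3, q5, q0]
      rw [div_le_iff₀ hγM] at this
      linarith only [this]
    exact by
     have z5 : 2 * (2 * (1 + v) + 1) ≤ M * Z := by
       have : 2 * (2 * (1 + v) + 1) / M ≤ Z := by linarith only [hZ2, hZbig, q1, q2, q3, q4, q0]
       rw [div_le_iff₀ hM0] at this
       linarith only [this]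
     have z6 : 8 ≤ Z := by linarith only [hZ2, hZbig, q1, q2, q3, q4, q5, q0]
     have z7 : (1 / cw + 4) + KB * (16 * (1 + v) / nk + 4 / cw + 1) +
         (2 / cw + 2) * (KB + c3) + c4 ≤ η / 2 * Z := by
       have h1 : Z1 ≤ Z := by linarith only [hη1, hM, hM0, hZ2, hZbig, q1, q2, q3, q4, q5, le_abs_self Z1]
       rw [hZ1, div_le_iff₀ (by positivity)] at h1
       linarith only [h1]
     have hZ0 : 0 < Z := by linarith only [hη1, hM, hM0, hZ2, hZbig, q1, q2, q3, q4, q5, q0]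
     have hcw1 : cw ≤ 1 / 32 := by
       rw [hcw, div_le_div_iff₀ (by positivity) (by norm_num)]
       nlinarith only [hv, hη1, he₂0, he₂3, hη, hγ1, hγM, hγ, hM]
     have hvcw : v * cw ≤ γ * M / 32 := by
       rw [hcw, mul_div_assoc', div_le_div_iff₀ (by positivity) (by norm_num)]
       nlinarith only [hγM]
     have hvcw1 : (1 + v) * cw = γ * M / 32 := by
       rw [hcw]
       field_simp
     have hnkγ : nk ≤ γ * M / 96 := by
       have h1 : nk * 1 ≤ nk * (1 + x₁) := mul_le_mul_of_nonneg_left (by linarith only [hx₁]) hnk0.le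
       have h2 : η * cw * (γ * M) ≤ 1 * (γ * M) := by
         refine mul_le_mul_of_nonneg_right ?_ hγM.le
         nlinarith only [hη1, hη, hcw1]
       have h3 : η * cw * (γ * M) / 96 ≤ 1 * (γ * M) / 96 := div_le_div_of_nonneg_right h2 (by norm_num)
       linarith only [hnk1, h1, h2]
     have hnkx : nk * x₁ ≤ γ * M / 96 := by
       have h1 : nk * x₁ ≤ nk * (1 + x₁) := mul_le_mul_of_nonneg_left (by linarith only [hcw0, hcw1]) hnk0.le
       have h2 : η * cw * (γ * M) ≤ 1 * (γ * M) := by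
         refine mul_le_mul_of_nonneg_right ?_ hγM.le
         nlinarith only [hη1, hη, hcw1]
       have h3 : η * cw * (γ * M) / 96 ≤ 1 * (γ * M) / 96 := div_le_div_of_nonneg_right h2 (by norm_num)
       linarith only [hnk1, he₂0, he₂2, h2]
     exact by
      have he₂4 : e₂ ≤ γ * M / 128 := by
        refine he₂3.trans (div_le_div_of_nonneg_right ?_ (by norm_num))
        nlinarith only [hη, hη1, he₂0, he₂3]
      have hγM1 : γ * M ≤ 1 := by nlinarith only [hη1, hη, hγ1, he₂0, he₂2, hnkγ, hγ, hM]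
      -- the integers
      obtain ⟨qa, hqa⟩ : ∃ qa, qa = ⌊q₀ * J⌋₊ := ⟨_, rfl⟩
      obtain ⟨ql, hql⟩ : ∃ ql, ql = ⌊M * Z⌋₊ := ⟨_, rfl⟩
      obtain ⟨d, hd⟩ : ∃ d, d = ⌊κ * Z⌋₊ := ⟨_, rfl⟩
      obtain ⟨g, hg⟩ : ∃ g, g = ⌈cw * Z⌉₊ := ⟨_, rfl⟩
      obtain ⟨X, hX⟩ : ∃ X, X = n * d := ⟨_, rfl⟩
      obtain ⟨st, hst'⟩ : ∃ st, st = ⌊(X : ℝ) / (2 * (1 + v))⌋₊ := ⟨_, rfl⟩
      obtain ⟨x', hx'⟩ : ∃ x', x' = ⌈x₁ * X⌉₊ + ⌈3 * (e₂ * Z)⌉₊ := ⟨_, rfl⟩
      have i1 : (qa : ℝ) ≤ q₀ * J := by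
        rw [hqa]
        exact Nat.floor_le (mul_nonneg b9.le hJ0)
      have i2 : q₀ * J < qa + 1 := by rw [hqa]; exact Nat.lt_floor_add_one _
      have i3 : (ql : ℝ) ≤ M * Z := by rw [hql]; exact Nat.floor_le (by positivity)
      have i4 : M * Z < ql + 1 := by rw [hql]; exact Nat.lt_floor_add_one _
      have i5 : (d : ℝ) ≤ κ * Z := by rw [hd]; exact Nat.floor_le (by positivity)
      have i6 : κ * Z < d + 1 := by rw [hd]; exact Nat.lt_floor_add_one _
      have i7 : cw * Z ≤ g := by rw [hg]; exact Nat.le_ceil _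
      have i8 : (g : ℝ) < cw * Z + 1 := by rw [hg]; exact Nat.ceil_lt_add_one (by positivity)
      have i9 : (X : ℝ) = n * d := by rw [hX]; push_cast; ring
      have i10 : (X : ℝ) ≤ nk * Z := by
        rw [i9, hnk, mul_assoc]
        exact mul_le_mul_of_nonneg_left i5 hn0.le
      have i11 : nk * Z / 2 ≤ X := by
        rw [i9, hnk]
        have : κ * Z / 2 ≤ d := by linarith only [z2, i6]
        calc (n : ℝ) * κ * Z / 2 = n * (κ * Z / 2) := by ring
          _ ≤ n * d := mul_le_mul_of_nonneg_left this hn0.le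
      exact by
       have hX0 : (0 : ℝ) ≤ X := Nat.cast_nonneg X
       have i12 : (st : ℝ) ≤ X / (2 * (1 + v)) := by rw [hst']; exact Nat.floor_le (by positivity)
       have i13 : (X : ℝ) / (2 * (1 + v)) < st + 1 := by rw [hst']; exact Nat.lt_floor_add_one _
       have i14 : (st : ℝ) * (2 * (1 + v)) ≤ X := by rwa [le_div_iff₀ (by positivity)] at i12
       have i15 : (X : ℝ) < (st + 1) * (2 * (1 + v)) := by rwa [div_lt_iff₀ (by positivity)] at i13
       have i16 : (x' : ℝ) ≤ x₁ * X + 3 * (e₂ * Z) + 2 := by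
         rw [hx']
         push_cast
         have h1 := (Nat.ceil_lt_add_one (show 0 ≤ x₁ * (X : ℝ) by positivity)).le
         have h2 := (Nat.ceil_lt_add_one (show 0 ≤ 3 * (e₂ * Z) by positivity)).le
         linarith only [h1, h2]
       have i17 : x₁ * X ≤ x' := by
         rw [hx']
         push_cast
         have h1 := Nat.le_ceil (x₁ * (X : ℝ))
         have h2 : (0 : ℝ) ≤ (⌈3 * (e₂ * Z)⌉₊ : ℕ) := Nat.cast_nonneg _
         linarith only [h1]
       have i18 : x₁ * X ≤ nk * x₁ * Z := by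
         calc x₁ * X ≤ x₁ * (nk * Z) := mul_le_mul_of_nonneg_left i10 hx₁.le
           _ = nk * x₁ * Z := by ring
       have i19 : nk * x₁ * Z ≤ γ * M / 96 * Z := mul_le_mul_of_nonneg_right hnkx hZ0.le
       have i20 : e₂ * Z ≤ γ * M / 128 * Z := mul_le_mul_of_nonneg_right he₂4 hZ0.le
       have i21 : γ * M * Z ≤ M * Z := by
         have : γ * M ≤ 1 * M := mul_le_mul_of_nonneg_right hγ1 hM0.le
         have := mul_le_mul_of_nonneg_right this hZ0.le
         linarith only [this]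
       have i22 : e₂ * L * J = e₂ * Z := by rw [hZ]; ring
       have i23 : nk * Z ≤ γ * M / 96 * Z := mul_le_mul_of_nonneg_right hnkγ hZ0.le
       have hst1 : 1 ≤ st := by
         by_contra hcon
         have : st = 0 := by omega
         rw [this] at i15
         push_cast at i15
         linarith only [hv, he₂0, he₂2, z3, hnkγ, hγM1, i11, i15]
       exact by
        have hst1r : (1 : ℝ) ≤ st := by exact_mod_cast hst1
        have hql1 : 1 ≤ ql := by
          by_contra hcon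
          have : ql = 0 := by omega
          rw [this] at i4
          push_cast at i4
          linarith only [hv, he₂0, he₂2, z3, hnkγ, hγM1, i21, i23, i4]
        have hg1 : 1 ≤ g := by
          by_contra hcon
          have : g = 0 := by omega
          rw [this] at i7
          push_cast at i7
          have : 0 < cw * Z := by positivity
          linarith only [i7, this]
        have hwZ : (wb : ℝ) - wa ≤ 2 * Z := by
          have h1 : (w₀ - L) * (J : ℝ) = w₀ * J - Z := by rw [hZ]; ring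
          have h2 : (w₀ + L) * (J : ℝ) = w₀ * J + Z := by rw [hZ]; ring
          rw [h1] at hwa
          rw [h2] at hwb
          linarith only [hwb, hwa]
        have hwZ2 : wa + Z / 2 ≤ wb := by
          have : L / 2 * (J : ℝ) = Z / 2 := by rw [hZ]; ring
          rw [this] at hww
          exact hww
        have hcwZ : cw * Z ≤ 1 / 32 * Z := mul_le_mul_of_nonneg_right hcw1 hZ0.le
        have hwg : wa + g ≤ wb := by
          have h1 : (wa : ℝ) + g ≤ wb := by linarith only [he₂0, he₂2, hZ2, hww, hZ, hZbig, q1, q2, q3, q4, q5, q0, hnkγ, hγM1, i8, hcwZ]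
          exact_mod_cast h1
        obtain ⟨W, np, p1, p2, p3, p4, p5, p6, p7⟩ := pieces hg1 hwg
        have hnp : (np : ℝ) ≤ 2 / cw := by
          rw [le_div_iff₀ hcw0]
          have h1 : ((np * g : ℕ) : ℝ) ≤ ((wb - wa : ℕ) : ℝ) := by exact_mod_cast p2
          rw [Nat.cast_sub (by omega)] at h1
          push_cast at h1
          have h2 : (np : ℝ) * (cw * Z) ≤ np * g := mul_le_mul_of_nonneg_left i7 (Nat.cast_nonneg np)
          have h3 : (np : ℝ) * cw * Z ≤ 2 * Z := by linarith only [hwa, hwb, hZ, h1, h2]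
          exact le_of_mul_le_mul_right h3 hZ0
        exact by
         have mono : ∀ w w', wa ≤ w → w ≤ w' → w' ≤ wb → vp w ≤ vp w' := hfr.mono
         have inc : ∀ w w', wa ≤ w → w ≤ w' → w' ≤ w + st → w' ≤ wb → w' + vp w' ≤ w + vp w + X := by
           intro w w' h1 h2 h3 h4
           have l1 := abs_le.1 (hlin w h1 (by omega))
           have l2 := abs_le.1 (hlin w' (by omega) h4)
           rw [i22] at l1 l2
           have h3r : (w' : ℝ) ≤ w + st := by exact_mod_cast h3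
           have h5 : v * (w' - w₀ * J) - v * (w - w₀ * J) ≤ v * st := by
             have : v * (w' - w₀ * J) - v * (w - w₀ * J) = v * ((w' : ℝ) - w) := by ring
             rw [this]
             exact mul_le_mul_of_nonneg_left (by linarith only [h3r]) hv
           have h6 : e₂ * Z ≤ nk / 16 * Z := mul_le_mul_of_nonneg_right he₂2 hZ0.le
           have h7 : (w' : ℝ) + vp w' ≤ w + vp w + X := by
             have h8 : (st : ℝ) * (1 + v) = st + v * st := by ring
             linarith only [hv, he₂0, he₂2, z3, hnkγ, hγM1, i11, i14, l1, l2, h3r, h5, h6, l1.1, l2.2]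
           exact_mod_cast h7
         have hqa1 : (q₀ - M * L) * J ≤ qa := by
           have h1 : (q₀ - M * L) * J = q₀ * J - M * Z := by rw [hZ]; ring
           rw [h1]
           linarith only [hv, he₂0, he₂2, z3, hnkγ, hγM1, i2, i21, i23]
         have hdr : κ * L * J = κ * Z := by rw [hZ]; ring
         have hnd : ((n * d : ℕ) : ℝ) ≤ γ * ql := by
           rw [← hX]
           have h1 : γ * (M * Z - 1) ≤ γ * ql := mul_le_mul_of_nonneg_left (by linarith only [i4]) hγ.le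
           have h2 : γ * (M * Z - 1) = γ * M * Z - γ := by ring
           linarith only [hv, hγ1, he₂0, he₂2, z3, hnkγ, hγM1, i10, i23, h1]
         have hD2 : v * (2 * g) + 2 * (e₂ * L * J) + x' ≤ γ * ql := by
           rw [i22]
           have h1 : γ * (M * Z - 1) ≤ γ * ql := mul_le_mul_of_nonneg_left (by linarith only [i4]) hγ.le
           have h2 : γ * (M * Z - 1) = γ * M * Z - γ := by ring
           have h3 : v * (2 * g) ≤ 2 * (v * cw * Z) + 2 * v := by
             have := mul_le_mul_of_nonneg_left i8.le hv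
             have e : v * (cw * Z + 1) = v * cw * Z + v := by ring
             linarith only [this]
           have h4 : v * cw * Z ≤ γ * M / 32 * Z := mul_le_mul_of_nonneg_right hvcw hZ0.le
           linarith only [hv, hγ1, he₂0, he₂2, z3, hnkγ, hγM1, i16, i18, i19, i20, i23, h1, h3, h4]
         exact by
          have hrise : 2 * (g : ℝ) + v * (2 * g) + 2 * (e₂ * L * J) ≤ ql := by
            rw [i22]
            have h3 : 2 * (g : ℝ) + v * (2 * g) ≤ 2 * ((1 + v) * cw * Z) + 2 * (1 + v) := by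
              have := mul_le_mul_of_nonneg_left i8.le hv1.le
              have e : (1 + v) * (cw * Z + 1) = (1 + v) * cw * Z + (1 + v) := by ring
              have e2 : 2 * (g : ℝ) + v * (2 * g) = 2 * ((1 + v) * g) := by ring
              linarith only [this]
            rw [hvcw1] at h3
            linarith only [hv, he₂0, he₂2, z3, hnkγ, hγM1, i4, i20, i21, i23, h3]
          have hMZ : M * Z ≤ 1 * Z := mul_le_mul_of_nonneg_right hM1 hZ0.le
          have hqlZ : (ql : ℝ) ≤ Z := by linarith only [i3, hMZ]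
          have hXst : (X : ℝ) ≤ 4 * (1 + v) * st := by
            have h1 : (1 + v) * 1 ≤ (1 + v) * (st : ℝ) := mul_le_mul_of_nonneg_left hst1r hv1.le
            linarith only [z3, i11, i15]
          have key := row_fam hfr hA0 Th (p := Pool.Agent.H49.Ent.cond F.p A True) rfl hst
            (al' := fun ω => al (Fam.pt F ω)) rfl hε0.le (Ch := 4 * (1 + v)) (st := st) (X := X)
            (x' := x') (qa := qa) (ql := ql) (N := N) (n := np) (Da := Da) (Db := Db) (W := W) p3 p4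
            (fun i hi => by have := p5 i hi; omega) p7 hst1 hql1 hXst inc (by
              have h1 : (wb : ℝ) + vp wb + (qa + ql) ≤ N := by
                rw [← hqa, ← hZ] at hN2
                linarith only [hN2, i3, hMZ]
              exact_mod_cast h1) hDa (by
              have h1 : (Da : ℝ) ≤ vp wa + x' := by
                rw [i22] at hDa'
                have h2 : 3 * (e₂ * Z) ≤ x' := by
                  rw [hx']
                  push_cast
                  have h3 := Nat.le_ceil (3 * (e₂ * Z))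
                  have h4 : (0 : ℝ) ≤ (⌈x₁ * (X : ℝ)⌉₊ : ℕ) := Nat.cast_nonneg _
                  linarith only [h3]
                linarith only [hDa', h2]
              exact_mod_cast h1) hDb hDD ?_
          · rw [← hqa]
            refine key.trans ?_
            have herr := row_err (η := η) (v := v) (Z := Z) (M := M) (cw := cw) (ε := ε) (nk := nk)
              (x₁ := x₁) (γ := γ) (e₂ := e₂) (K := K1 (B + 1)) (c3 := c3) (c4 := c4) (wa := wa)
              (wb := wb) (st := st) (n := np) (X := X) (x' := x') (ql := ql) hη hη1 hv hγ hγ1 hx₁ hM hcw hε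
              hnk0 hnk1 he₂3 (K1_nonneg (by have := hfr.B1; linarith only [he₂0, he₂2, hnkγ, hγM1, this])) hc30 hZ0 (by
                rw [hKB, abs_of_nonneg (K1_nonneg (by have := hfr.B1; linarith only [he₂0, he₂2, hnkγ, hγM1, this]))] at z7
                exact z7) hwZ hnp i10 i11 hXst i3 (by
                have : x₁ * (nk * Z) = nk * x₁ * Z := by ring
                rw [this]
                linarith only [i16, i18]) hst1
            rw [← hc3, ← hc4]
            have h1 : η * Z ≤ η₁ * L * J := by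
              rw [hZ, mul_assoc]
              exact mul_le_mul_of_nonneg_right hηη (by positivity)
            linarith only [herr, h1]
          · intro i hi
            have h5 := p5 i hi
            have h7 := p7 (i + 1) hi
            have h8 := p7 i hi.le
            have hn1 := hU σ wl (W i) (W (i + 1)) vp kap Hu HN al nu k b a s t
              (hfr.win h8.1 h7.2) hσ qa (qa + ql) d (vp (W (i + 1)) + x')
              (ueN_piece hv hL.le mono hlin he₂1 h8.1 h5 (p6 i hi) h7.2 hwa hwb hhh (by rw [hqa]; exact hroom)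
                (by
                  have : cw * L * J = cw * Z := by rw [hZ]; ring
                  rw [this]
                  exact i7) hqa1 i1 (by
                  have : M * L * J = M * Z := by rw [hZ]; ring
                  rw [this]
                  exact i3) hM1 (by rw [hdr]; linarith only [z2, i6]) (by rw [hdr]; exact i5) hnd
                (by rw [← hX]; exact i17) hD2 hrise)
              (fun _ _ => N) (by
                intro w q g1 _ g3 _
                rw [← hqa] at hN1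
                omega)
            have h9 := hn1.2 K Th hTh
            rw [Nat.add_sub_cancel_left] at h9
            rw [← hX] at h9
            exact h9

end Pool.S6V
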