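import Pool.Agent.H51.S6.Loc

/-!
# The U-step as a statement: the planks of the exact points have no deficit
-/

set_option autoImplicit false

namespace Pool.S6C

open Finset Real
open Pool.Agent.H49.Ent Pool.Agent.H32.Dense Pool.STK Pool.KA Pool.KSAT Pool.K2S Pool.PB Pool.KS6

/-- **The activity** in a class: the activity numbers are monotone, grow at most with slope one,
and are at least linear near zero. -/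
structure ActD (S : PCl 3) (i₀ : Fin 3) (act : ℚ → ℝ) (κ : ℝ) : Prop where
  num : ActN S i₀ act
  zero : act 0 = 0
  mono : ∀ q q' : ℚ, 0 ≤ q → q ≤ q' → q' ≤ 1 → act q ≤ act q'
  lip : ∀ q q' : ℚ, 0 ≤ q → q ≤ q' → q' ≤ 1 → act q' - act q ≤ q' - q
  pos : 0 < κ
  low : ∃ q₀ : ℚ, 0 < q₀ ∧ q₀ ≤ 1 ∧ ∀ q : ℚ, 0 ≤ q → q ≤ q₀ → κ * q ≤ act q

theorem ActD.le {S S' : PCl 3} {i₀ : Fin 3} {act : ℚ → ℝ} {κ : ℝ} (h : S'.Le S)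
    (hA : ActD S i₀ act κ) : ActD S' i₀ act κ :=
  ⟨hA.num.le h, hA.zero, hA.mono, hA.lip, hA.pos, hA.low⟩

/-- The activity exists in a subclass. -/
theorem actD_of (h : ACTStmt) {S : PCl 3} {a R h₁ : ℝ} {i₀ : Fin 3} {c s₂ : ℝ} {r : ℝ → ℝ}
    {D : Set ℝ} {σ : ℝ → Row} (hC : Cs S a R h₁ i₀ c s₂ r D σ) :
    ∃ (S' : PCl 3) (act : ℚ → ℝ) (κ : ℝ), SubC S' S ∧ ActD S' i₀ act κ := by
  obtain ⟨S', act, κ, h1, h2, h3, h4, h5, h6, h7⟩ := h S a R h₁ i₀ c s₂ r D σ hC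
  exact ⟨S', act, κ, h1, h2, h3, h4, h5, h6, h7⟩

/-- **(UV)** The U-step, with side labels: if there are planks of thickness `p` on the windows `w`,
then for windows `v` between `w` and `w'` the two rows in the plank are full up to `p`, given any
label which is a function of the exact point and of the line with its window and which determines a
plank of thickness `p`. -/
def UVStmt : Prop :=
  ∀ (S : PCl 3) (a R h₁ : ℝ) (i₀ : Fin 3) (c s₂ : ℝ) (r : ℝ → ℝ) (D : Set ℝ) (σ : ℝ → Row),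
    Cs S a R h₁ i₀ c s₂ r D σ → ∀ (act : ℚ → ℝ) (κ : ℝ), ActD S i₀ act κ →
    ∀ p : ℝ, 0 < p → p < 1 → ∀ w w' : ℚ, 0 < w → w < w' → (w' : ℝ) < 1 →
    (w' : ℝ) + (σ 1).rot w' < p → (σ 1).rot w' < (σ 1).pi → p < (σ 1).th w → ∀ h : ℝ, 0 < h →
    ∃ (v : ℚ) (k : ℝ), w < v ∧ v < w' ∧ 0 < k ∧ k ≤ h ∧
      Clp S (fun J F A => ∀ iu iN : Fin 3, (∀ j : Fin 3, j = i₀ ∨ j = iu ∨ j = iN) →
        ∀ (Λ : Type) (y : F.Ω → Λ) (pl : Λ → Pln),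
        (∀ ω, A ω → Inc i₀ iu iN ⌊(v : ℝ) * J⌋₊ ⌊((σ 1).rot v - k) * J⌋₊ ⌊p * J⌋₊ 2 (pl (y ω))
          (F.t ω) (F.x ω) (F.d ω)) →
        (∃ φ : (Fin 3 → ℤ) × (ℕ × F.ζ) → Λ, ∀ ω, A ω → y ω = φ (Fam.pt F ω)) →
        (∃ ψ : ((Fin 3 → ℝ) × (Fin 3 → ℝ)) × F.ζ × ℕ → Λ, ∀ ω, A ω →
          y ω = ψ (slam F ⌊(v : ℝ) * J⌋₊ ω)) →
        (2 * p - 2 * v - (σ 1).rot v - h) * J * Real.log 2 ≤
          CH (Pool.Agent.H49.Ent.cond F.p A True) (F.X ⌊p * J⌋₊) (fun ω => (y ω, F.W ω)))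

/-- **(UST)** The U-step, without side labels. -/
def USTStmt : Prop :=
  ∀ (S : PCl 3) (a R h₁ : ℝ) (i₀ : Fin 3) (c s₂ : ℝ) (r : ℝ → ℝ) (D : Set ℝ) (σ : ℝ → Row),
    Cs S a R h₁ i₀ c s₂ r D σ → ∀ (act : ℚ → ℝ) (κ : ℝ), ActD S i₀ act κ →
    ∀ p : ℝ, 0 < p → p < 1 → ∀ w w' : ℚ, 0 < w → w < w' → (w' : ℝ) < 1 →
    (w' : ℝ) + (σ 1).rot w' < p → (σ 1).rot w' < (σ 1).pi → p < (σ 1).th w → ∀ h : ℝ, 0 < h →
    ∃ (v : ℚ) (k : ℝ), w < v ∧ v < w' ∧ 0 < k ∧ k ≤ h ∧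
      Clp S (fun J F A => ∀ iu iN : Fin 3, (∀ j : Fin 3, j = i₀ ∨ j = iu ∨ j = iN) →
        ∀ z : F.Ω → Pln,
        (∀ ω, A ω → Inc i₀ iu iN ⌊(v : ℝ) * J⌋₊ ⌊((σ 1).rot v - k) * J⌋₊ ⌊p * J⌋₊ 2 (z ω)
          (F.t ω) (F.x ω) (F.d ω)) →
        (∃ φ : (Fin 3 → ℤ) × (ℕ × F.ζ) → Pln, ∀ ω, A ω → z ω = φ (Fam.pt F ω)) →
        (∃ ψ : ((Fin 3 → ℝ) × (Fin 3 → ℝ)) × F.ζ × ℕ → Pln, ∀ ω, A ω →
          z ω = ψ (slam F ⌊(v : ℝ) * J⌋₊ ω)) →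
        (2 * p - 2 * v - (σ 1).rot v - h) * J * Real.log 2 ≤
          CH (Pool.Agent.H49.Ent.cond F.p A True) (F.X ⌊p * J⌋₊) (fun ω => (z ω, F.W ω)))

theorem ust_of_uv (h : UVStmt) : USTStmt := by
  intro S a R h₁ i₀ c s₂ r D σ hC act κ hact p hp0 hp1 w w' hw hww hw1 hwp hrot hth e he
  obtain ⟨v, k, h1, h2, h3, h4, h5⟩ := h S a R h₁ i₀ c s₂ r D σ hC act κ hact p hp0 hp1 w w' hw
    hww hw1 hwp hrot hth e he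
  exact ⟨v, k, h1, h2, h3, h4, Clp.mono (J₂ := 0) h5 fun J _ F A hA iu iN hi z =>
    hA iu iN hi Pln z id⟩

end Pool.S6C
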