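import Pool.Agent.H75.S6C.Ths
import Pool.Agent.H80.S6C.Rate
import Pool.Agent.H77.S6.FQA
import Pool.Agent.H77.S6C.Ust

/-!
# Planks of exact points give planks of truncated points, in a class
-/

set_option autoImplicit false

namespace Pool.S6C

open Finset Real
open Pool.Agent.H49.Ent Pool.Agent.H32.Dense Pool.STK Pool.KA Pool.KSAT Pool.K2S Pool.PB Pool.KS6

/-- Trivial planks. -/
def TRivStmt : Prop :=
  ∀ (S : PCl 3) (a R h₁ : ℝ) (i₀ : Fin 3) (c s₂ : ℝ) (r : ℝ → ℝ) (D : Set ℝ) (σ : ℝ → Row),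
    Cs S a R h₁ i₀ c s₂ r D σ → ∀ Q : ℝ, 0 ≤ Q → Q ≤ 1 → ∀ ρ : Row, Rw S i₀ Q ρ →
    ∀ w : ℚ, 0 ≤ w → (w : ℝ) ≤ Q → min Q ((w : ℝ) + ρ.rot w) ≤ ρ.th w

/-- The rows of a Pliss row, in the families of the class. -/
theorem plsC_of {S : PCl 3} {a R h₁ : ℝ} {i₀ : Fin 3} {c s₂ : ℝ} {r : ℝ → ℝ} {D : Set ℝ}
    {σ : ℝ → Row} (hC : Cs S a R h₁ i₀ c s₂ r D σ) {Q : ℝ} (hQ1 : Q ≤ 1) (hQ : Plr r c Q) :
    PlsC S c Q := by
  intro P hP0 hPQ h hh
  have hl2 : 0 < Real.log 2 := Real.log_pos (by norm_num)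
  have c1 := hC.rate P hP0 (hPQ.trans hQ1) (h / 2) (by linarith only [hh])
  have c2 := hC.rate Q (hP0.trans hPQ) hQ1 (h / 2) (by linarith)
  have c3 : Clp S (fun J F A => 0 < Pe F.p A) :=
    Clp.base 1 one_pos 0 fun J _ F A hA => lt_of_lt_of_le (Real.exp_pos _)
      (hC.st _ _ _ _ hA).2.2.2
  refine Clp.mono (J₂ := 0) ((c1.and c2).and c3) ?_
  rintro J - F A ⟨⟨d1, d2⟩, d3⟩
  have hJ0 : (0 : ℝ) ≤ J := Nat.cast_nonneg J
  rw [CH_rows F (isLaw_cond F.isLaw d3) (floor_row hPQ J)]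
  rw [abs_le] at d1 d2
  have h1 := hQ P hP0 hPQ
  have h2 := mul_le_mul_of_nonneg_right h1 (mul_nonneg hl2.le hJ0)
  nlinarith only [d1, d2, h2, d1.1, d2.2]

/-- One production: planks of the row `Q`, of thickness almost `p₁`, from planks of the exact points
of thickness `p`. -/
theorem pu_prod {S : PCl 3} {a R h₁ : ℝ} {i₀ : Fin 3} {c s₂ : ℝ} {r : ℝ → ℝ} {D : Set ℝ}
    {σ : ℝ → Row} (hC : Cs S a R h₁ i₀ c s₂ r D σ) {Q p p₁ : ℝ} {v : ℚ} {k h : ℝ}
    (hQ0 : 0 < Q) (hQ1 : Q ≤ 1) (hQD : Q ∉ D) (hQ : Plr r c Q) (hv0 : 0 < v) (hv1 : v ≤ 1)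
    (hpQ : p ≤ Q) (hp0 : 0 < p) (hth : p < (σ 1).th v)
    (hvp : (v : ℝ) + (σ 1).rot v ≤ p) (hk0 : 0 < k) (hkh : k ≤ h)
    (hrot : (σ 1).rot v < (σ Q).pi)
    (hU : Clp S (fun J F A => ∀ iu iN : Fin 3, (∀ j : Fin 3, j = i₀ ∨ j = iu ∨ j = iN) →
        ∀ z : F.Ω → Pln,
        (∀ ω, A ω → Inc i₀ iu iN ⌊(v : ℝ) * J⌋₊ ⌊((σ 1).rot v - k) * J⌋₊ ⌊p * J⌋₊ 2 (z ω)
          (F.t ω) (F.x ω) (F.d ω)) →
        (∃ φ : (Fin 3 → ℤ) × (ℕ × F.ζ) → Pln, ∀ ω, A ω → z ω = φ (Fam.pt F ω)) →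
        (∃ ψ : ((Fin 3 → ℝ) × (Fin 3 → ℝ)) × F.ζ × ℕ → Pln, ∀ ω, A ω →
          z ω = ψ (slam F ⌊(v : ℝ) * J⌋₊ ω)) →
        (2 * p - 2 * v - (σ 1).rot v - h) * J * Real.log 2 ≤
          CH (Pool.Agent.H49.Ent.cond F.p A True) (F.X ⌊p * J⌋₊) (fun ω => (z ω, F.W ω))))
    (hp₁ : 6 * (Q - p) + 9 * h ≤ c * (Q - p₁)) (hp₁p : p₁ ≤ p)
    (hp₁v : (v : ℝ) + (σ 1).rot v < p₁) {x : ℝ} (hx : 0 < x) :
    p₁ - x ≤ (σ Q).th v := by
  classical
  have hh0 : 0 < h := lt_of_lt_of_le hk0 hkh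
  have hv0' : (0 : ℝ) < v := by exact_mod_cast hv0
  have hl2 : 0 < Real.log 2 := Real.log_pos (by norm_num)
  have hr1 := hC.row 1 one_pos le_rfl hC.D1
  have hrQ := hC.row Q hQ0 hQ1 hQD
  obtain ⟨ro, hro⟩ : ∃ ro, ro = (σ 1).rot v := ⟨_, rfl⟩
  have hro0 : 0 ≤ ro := by
    rw [hro]
    exact num_nonneg hC.ne (hr1.rot v hv0.le hv1)
  rw [← hro] at hU hp₁v hrot hvp
  have hp₁0 : 0 < p₁ := by linarith
  obtain ⟨X, hX⟩ : ∃ X, X = min (x / 2) (min h ((p₁ - v - ro) / 4)) := ⟨_, rfl⟩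
  have hX0 : 0 < X := by
    rw [hX]
    exact lt_min (by linarith only [hx]) (lt_min hh0 (by linarith))
  have hX1 : X ≤ x / 2 := by rw [hX]; exact min_le_left _ _
  have hX2 : X ≤ h := by rw [hX]; exact (min_le_right _ _).trans (min_le_left _ _)
  have hX3 : X ≤ (p₁ - v - ro) / 4 := by
    rw [hX]; exact (min_le_right _ _).trans (min_le_right _ _)
  have key : p₁ - X ≤ (σ Q).th v := by
    refine num_ge hC.ne (hrQ.th v hv0.le hv1) ?_
    obtain ⟨c₀, hc₀, hcore⟩ := frq_core hC.a1 hC.R0 hC.ub (h₁ := h₁) (η := h * Real.log 2)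
      (x := X / 2) (C := 2) hC.h₁0 (by positivity) (by positivity) (by norm_num)
    refine Clp.step ⟨2, fun J F i => if i = 0 then qTh i₀ Q v (p₁ - X) J F
      else Ball (1 / 2 ^ ⌈min h₁ (min (X / 2) 1) / 8 * J⌉₊) (Fam.pt F) F.d, fun J F i => by
        split_ifs
        · exact qTh.hered _ _ _ _ _ _
        · exact Ball.hered _ _ _⟩ fun κ hκ => ?_
    obtain ⟨τ, hτ, J₁, hcore⟩ := hcore κ hκ
    obtain ⟨J₂, hJ₂⟩ := Pool.S6K.exp_small (κ := κ) (C := max 1 (1 / c₀)) hκ (le_max_left _ _)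
    obtain ⟨J₃, hJ₃⟩ := exists_nat_gt (2 / X + 11 / h + 1)
    -- the inputs
    have c1 := glu hC le_rfl hr1 v hv0.le hv1 (v := ro - k) (s := p) (by rw [← hro]; linarith only [hk0])
      hth (by linarith only [hk0, hp₁p, hX0, hX3]) hp0 (hpQ.trans hQ1)
    have c2 := hrQ.pi.1 ((σ Q).pi - ro) (by linarith only [hrot])
    have c3 := plsC_of hC hQ1 hQ p₁ hp₁0.le (hp₁p.trans hpQ) (h * Real.log 2) (by positivity)
    have c4 : Clp S (fun J F A => Lb F i₀ ⌊h₁ * J⌋₊ A ∧ Fam.Stt F a R τ A) :=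
      Clp.base τ hτ 0 fun J _ F A hS => ⟨hC.lb _ _ _ _ hS, hC.st _ _ _ _ hS⟩
    refine Clp.mono (J₂ := max J₁ (max J₂ J₃)) (((c1.and hU).and (c2.and c3)).and c4) ?_
    rintro J hJ F A ⟨⟨⟨d1, d2⟩, d3, d4⟩, dlb, dst⟩ hSb
    have hJ₁' : J₁ ≤ J := (le_max_left _ _).trans hJ
    have hJ₂' : J₂ ≤ J := ((le_max_left _ _).trans (le_max_right _ _)).trans hJ
    have hJ₃' : J₃ ≤ J := ((le_max_right _ _).trans (le_max_right _ _)).trans hJ
    have hJr : 2 / X + 11 / h + 1 < J := hJ₃.trans_le (by exact_mod_cast hJ₃')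
    have q1 : 0 < 2 / X := by positivity
    have q2 : 0 < 11 / h := by positivity
    have hJX : 2 < J * X := by
      have : 2 / X < J := by linarith only [hQ1, hpQ, hp₁p, hv0', hro0, hX0, hX3, hJr, q2]
      rwa [div_lt_iff₀ hX0] at this
    have hJh : 11 < J * h := by
      have : 11 / h < J := by linarith only [hQ1, hpQ, hp₁p, hv0', hro0, hX0, hX3, hJr, q1]
      rwa [div_lt_iff₀ hh0] at this
    have hJ0 : (0 : ℝ) < J := by linarith only [hQ1, hpQ, hp₁p, hv0', hro0, hX0, hX3, hJr, q1, q2]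
    have hs0 := hSb 0
    have hs1 := hSb 1
    simp only [if_true] at hs0
    simp only [show ¬ ((1 : Fin 2) = 0) by decide, if_false] at hs1
    obtain ⟨iu, iN, hi, z, hI, hφ, hψ⟩ := d1
    rw [ptq_one] at hφ
    -- the numbers
    obtain ⟨W, hW⟩ : ∃ W, W = ⌊(v : ℝ) * J⌋₊ := ⟨_, rfl⟩
    obtain ⟨lam, hlam⟩ : ∃ lam, lam = ⌊(ro - k) * J⌋₊ := ⟨_, rfl⟩
    obtain ⟨l2, hl2'⟩ : ∃ l2, l2 = ⌊(ro - k - X) * J⌋₊ := ⟨_, rfl⟩
    obtain ⟨P1, hP1⟩ : ∃ P1, P1 = ⌊p₁ * J⌋₊ := ⟨_, rfl⟩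
    obtain ⟨P2, hP2⟩ : ∃ P2, P2 = ⌊(p₁ - X) * J⌋₊ := ⟨_, rfl⟩
    obtain ⟨Pt, hPt⟩ : ∃ Pt, Pt = ⌊p * J⌋₊ := ⟨_, rfl⟩
    obtain ⟨Qt, hQt⟩ : ∃ Qt, Qt = ⌊Q * J⌋₊ := ⟨_, rfl⟩
    have d2' := d2 iu iN hi z hI hφ hψ
    rw [← hW, ← hlam, ← hPt] at hI
    rw [← hW] at hψ
    have hs0' : Stb F.p (κ * J) A (qTh i₀ Q v (p₁ - X) J F) := hs0
    have w1 : (W : ℝ) ≤ v * J := by rw [hW]; exact Nat.floor_le (by positivity)
    have w2 : (v : ℝ) * J < W + 1 := by rw [hW]; exact Nat.lt_floor_add_one _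
    have l1 : (ro - k) * J < lam + 1 := by rw [hlam]; exact Nat.lt_floor_add_one _
    have l3 : (ro - k - X) * J < l2 + 1 := by rw [hl2']; exact Nat.lt_floor_add_one _
    have a1 : (P1 : ℝ) ≤ p₁ * J := by rw [hP1]; exact Nat.floor_le (by positivity)
    have a2 : p₁ * J < P1 + 1 := by rw [hP1]; exact Nat.lt_floor_add_one _
    have a3 : (P2 : ℝ) ≤ (p₁ - X) * J := by
      rw [hP2]
      exact Nat.floor_le (mul_nonneg (by linarith only [hv0', hro0, hX0, hX3]) hJ0.le)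
    have a5 : p * J < Pt + 1 := by rw [hPt]; exact Nat.lt_floor_add_one _
    have a6 : (Qt : ℝ) ≤ Q * J := by rw [hQt]; exact Nat.floor_le (by positivity)
    have a7 : Q * J < Qt + 1 := by rw [hQt]; exact Nat.lt_floor_add_one _
    have hXJ : X / 2 * J = J * X / 2 := by ring
    have m1 : l2 = 0 ∨ (l2 : ℝ) + X / 2 * J ≤ lam := by
      by_cases hneg : ro - k - X ≤ 0
      · left
        rw [hl2']
        exact Nat.floor_of_nonpos (mul_nonpos_of_nonpos_of_nonneg hneg hJ0.le)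
      · right
        push Not at hneg
        have : (l2 : ℝ) ≤ (ro - k - X) * J := by
          rw [hl2']
          exact Nat.floor_le (by positivity)
        nlinarith only [hJX, l1, this]
    have m2 : (W : ℝ) + l2 + X / 2 * J ≤ P1 := by
      have e1 : (l2 : ℝ) ≤ ro * J := by
        by_cases hneg : ro - k - X ≤ 0
        · have : l2 = 0 := by
            rw [hl2']
            exact Nat.floor_of_nonpos (mul_nonpos_of_nonpos_of_nonneg hneg hJ0.le)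
          rw [this, Nat.cast_zero]
          positivity
        · push Not at hneg
          have : (l2 : ℝ) ≤ (ro - k - X) * J := by
            rw [hl2']
            exact Nat.floor_le (by positivity)
          nlinarith only [hQ1, hpQ, hk0, hp₁p, hv0', hX0, hX3, hJX, hneg, this]
      have e2 : (4 * X) * J ≤ (p₁ - v - ro) * J := mul_le_mul_of_nonneg_right (by linarith only [hX3]) hJ0.le
      nlinarith only [hQ1, hpQ, hp₁p, hv0', hro0, hX0, hX3, hJX, w1, a2, e1, e2]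
    have m3 : (P2 : ℝ) + X / 2 * J ≤ P1 := by nlinarith only [hJX, a2, a3]
    have m4 : P1 ≤ Pt := by rw [hP1, hPt]; exact floor_row hp₁p J
    have m5 : Pt ≤ Qt := by rw [hPt, hQt]; exact floor_row hpQ J
    have m6 : Qt ≤ J := by rw [hQt]; exact floor_row_one hQ1 J
    have m7 : W + l2 ≤ Qt := by
      have : ((W + l2 : ℕ) : ℝ) ≤ P1 := by
        push_cast
        have : 0 < X / 2 * J := by positivity
        linarith only [hQ1, hpQ, hp₁p, hv0', hro0, hX0, hX3, hJX, m2]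
      have : W + l2 ≤ P1 := by exact_mod_cast this
      omega
    have m8 : l2 = 0 ∨ LineU i₀ (1 / 2 ^ lam) (ptq F Qt) F.d A := by
      rcases d3 with d3 | ⟨-, d3⟩
      · left
        rw [hl2']
        refine Nat.floor_of_nonpos (mul_nonpos_of_nonpos_of_nonneg ?_ hJ0.le)
        linarith only [hk0, hX0, d3]
      · right
        rw [hQt]
        refine LineU.mono d3 ?_
        rw [hlam]
        exact pow_anti (by linarith only [hk0]) J
    -- the entropies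
    have hA0 : 0 < Pe F.p A := lt_of_lt_of_le (Real.exp_pos _) dst.2.2.2
    have hlaw := isLaw_cond F.isLaw hA0
    have e1 : CH (Pool.Agent.H49.Ent.cond F.p A True) (F.X Pt) (fun ω => (z ω, F.W ω)) ≤
        CH (Pool.Agent.H49.Ent.cond F.p A True) (F.X Qt) (fun ω => (z ω, F.W ω)) := by
      obtain ⟨χ, hχ⟩ := ptr_coarse F m5
      refine CH_mono_left hlaw.nonneg fun ω ω' _ _ hh => ?_
      obtain ⟨b1, b2⟩ := Prod.ext_iff.mp hh
      have b3 : F.W ω = F.W ω' := (Prod.ext_iff.mp b2).2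
      have h1 := hχ ω
      have h2 := hχ ω'
      have h3 : ptr F Qt ω = ptr F Qt ω' := Prod.ext b1 b3
      rw [h3, ← h2] at h1
      exact (Prod.ext_iff.mp h1).1
    rw [← hPt] at d2'
    rw [← hQt, ← hP1] at d4
    obtain ⟨B, hB, hPB, hLB⟩ := hcore J hJ₁' F A dst i₀ iu iN hi W lam l2 P1 P2 Pt Qt W m1 m2 m3
      m4 m5 m6 le_rfl m7 hs1 dlb m8 z hI hφ hψ (by
        have f1 : (((Qt : ℝ) - W) + ((Qt : ℝ) - (W + l2 : ℕ))) * Real.log 2 ≤
            ((2 * Q - 2 * v - (ro - k - X)) * J + 3) * Real.log 2 := by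
          refine mul_le_mul_of_nonneg_right ?_ hl2.le
          push_cast
          nlinarith only [w2, l3, a6]
        have f2 : 2 * ((Qt : ℝ) - Pt) * Real.log 2 ≤ (2 * (Q - p) * J + 2) * Real.log 2 := by
          refine mul_le_mul_of_nonneg_right ?_ hl2.le
          nlinarith only [a5, a6]
        have f3 : (3 * (Q - p₁) * J - 3) * Real.log 2 ≤ 3 * ((Qt : ℝ) - P1) * Real.log 2 := by
          refine mul_le_mul_of_nonneg_right ?_ hl2.le
          nlinarith only [a1, a7]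
        have f4 : ((6 * (Q - p) + 9 * h) * J) * Real.log 2 ≤ (c * (Q - p₁) * J) * Real.log 2 :=
          mul_le_mul_of_nonneg_right (mul_le_mul_of_nonneg_right hp₁ hJ0.le) hl2.le
        have f5 : (k * J) * Real.log 2 ≤ (h * J) * Real.log 2 :=
          mul_le_mul_of_nonneg_right (mul_le_mul_of_nonneg_right hkh hJ0.le) hl2.le
        have f6 : (X * J) * Real.log 2 ≤ (h * J) * Real.log 2 :=
          mul_le_mul_of_nonneg_right (mul_le_mul_of_nonneg_right hX2 hJ0.le) hl2.le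
        have f7 : 11 * Real.log 2 ≤ (h * J) * Real.log 2 :=
          mul_le_mul_of_nonneg_right (by linarith only [hJh]) hl2.le
        nlinarith only [d4, d2', e1, f1, f2, f3, f4, f5, f6, f7])
    have hqB : qTh i₀ Q v (p₁ - X) J F B := by
      refine ⟨iu, iN, hi, ?_⟩
      rw [← hQt, ← hW, ← hP2]
      exact hLB.mono (by norm_num) (Nat.zero_le _) le_rfl le_rfl
    have hPA : Pe F.p A ≤ max 1 (1 / c₀) * Pe F.p B := by
      have e2 : Pe F.p A ≤ 1 / c₀ * Pe F.p B := by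
        rw [div_mul_eq_mul_div, le_div_iff₀ hc₀]
        linarith only [hPB]
      exact e2.trans (mul_le_mul_of_nonneg_right (le_max_right _ _) (Pe_nonneg F.isLaw B))
    refine Or.inr ⟨by linarith only [hpQ, hp₁p, hX0], ?_⟩
    exact Pool.S6K.stb_part hs0' hB (by positivity) hPA (hJ₂ J hJ₂') (Pe_nonneg F.isLaw A) hqB
  linarith only [hX0, hX1, key]

/-- **Module PU**, from the U-step and trivial planks. -/
theorem pu_of_triv (hT : TRivStmt) (hA : ACTStmt) (hU : USTStmt) : PUStmt := by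
  intro S₀ a R h₁ i₀ c s₂ r D σ hC₀
  obtain ⟨S, act, κ, hsub, hact⟩ := actD_of hA hC₀
  have hC := hC₀.le hsub
  have hc := hC.c0
  have hr1 := hC.row 1 one_pos le_rfl hC.D1
  -- the constant is small
  have hc2 : c ≤ 3 / 2 := by
    have h1 := hC.tail 0 le_rfl zero_le_one
    have h2 := hC.mono 0 1 le_rfl zero_le_one le_rfl
    linarith only [h1, h2]
  refine ⟨6 / c + 1, by positivity, ?_⟩
  intro Q hQh hQ1 hQD hQ w w' hw hww hwQ hrot hrotQ
  have hQ0 : 0 < Q := by linarith only [hQh, hQ1]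
  have hrQ := hC.row Q hQ0 hQ1.le hQD
  have hw0 : (0 : ℝ) < w := by exact_mod_cast hw
  have hww' : (w : ℝ) < w' := by exact_mod_cast hww
  have hw'0 : 0 < w' := hw.trans hww
  have hw1 : w' ≤ 1 := by
    have : (w' : ℝ) ≤ 1 := hwQ.trans hQ1.le
    exact_mod_cast this
  obtain ⟨δ, hδ⟩ : ∃ δ, δ = max 0 (Q - (σ 1).th w) := ⟨_, rfl⟩
  rw [← hδ]
  have hδ0 : 0 ≤ δ := by rw [hδ]; exact le_max_left _ _
  have hδ1 : Q - (σ 1).th w ≤ δ := by rw [hδ]; exact le_max_right _ _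
  have hδ2 : δ ≤ Q - min Q ((σ 1).th w) := by
    rw [hδ]
    refine max_le ?_ ?_
    · linarith only [min_le_left Q ((σ 1).th w)]
    · linarith only [min_le_right Q ((σ 1).th w)]
  have hth0 : 0 ≤ (σ Q).th w' := num_nonneg hC.ne (hrQ.th w' hw'0.le hw1)
  have hc6 : 0 ≤ 6 / c := by positivity
  refine le_of_forall_pos_le_add fun h₀ hh₀ => ?_
  obtain ⟨h, hh⟩ : ∃ h, h = h₀ / (15 / c + 3) := ⟨_, rfl⟩
  have hden : 0 < 15 / c + 3 := by positivity
  have hh0 : 0 < h := by rw [hh]; positivity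
  have hh1 : (15 / c + 3) * h = h₀ := by rw [hh]; field_simp
  have hh2 : 3 * h ≤ h₀ := by
    have : 0 ≤ 15 / c * h := by positivity
    linarith only [hh1, this]
  obtain ⟨p, hp⟩ : ∃ p, p = Q - δ - h := ⟨_, rfl⟩
  have hpQ : p ≤ Q := by linarith only [hδ0, hh0, hp]
  have hpth : p < (σ 1).th w := by linarith only [hδ1, hh0, hp]
  have h6 : 0 ≤ 6 / c * δ := by positivity
  -- trivial planks
  have htr : ∀ u : ℚ, 0 < u → u ≤ w' → min Q ((u : ℝ) + (σ 1).rot u) ≤ (σ Q).th w' := by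
    intro u hu0 hu
    have hu' : (u : ℝ) ≤ w' := by exact_mod_cast hu
    have huQ : (u : ℝ) ≤ Q := hu'.trans hwQ
    have e1 := hT S a R h₁ i₀ c s₂ r D σ hC Q hQ0.le hQ1.le (σ Q) hrQ u hu0.le huQ
    have e2 := rot_min hC hQ0.le hQ1.le hrQ u hu0.le (hu.trans hw1)
    have e3 := rot_window hC.ne hr1 hu0.le hu hw1
    have e4 : min ((σ 1).rot u) (σ Q).pi = (σ 1).rot u := min_eq_left (e3.trans hrotQ.le)
    rw [e4] at e2
    have e5 := th_mono hC.ne hC.st hQ1.le hrQ u w' hu0.le hu hwQ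
    refine le_trans (le_trans ?_ e1) e5
    exact min_le_min le_rfl (by linarith only [e2])
  by_cases hp0 : p ≤ 0
  · have : (6 / c + 1) * δ = 6 / c * δ + δ := by ring
    linarith only [hth0, hh0, hh2, hp, h6, hp0]
  push Not at hp0
  have hp1 : p < 1 := by linarith only [hQ1, hδ0, hh0, hp]
  by_cases hcase : p ≤ (w' : ℝ) + (σ 1).rot w'
  · have e1 := htr w' hw'0 le_rfl
    have e2 : p ≤ min Q ((w' : ℝ) + (σ 1).rot w') := le_min hpQ hcase
    have : (6 / c + 1) * δ = 6 / c * δ + δ := by ring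
    linarith only [hh0, hh2, hp, h6, e1, e2]
  push Not at hcase
  obtain ⟨v, k, hv1, hv2, hk0, hkh, hcl⟩ := hU S a R h₁ i₀ c s₂ r D σ hC act κ hact p hp0 hp1
    w w' hw hww (lt_of_le_of_lt hwQ hQ1) hcase hrot hpth h hh0
  have hv0 : 0 < v := hw.trans hv1
  have hvw' : (v : ℝ) < w' := by exact_mod_cast hv2
  have hv1' : v ≤ 1 := hv2.le.trans hw1
  have hrv := rot_window hC.ne hr1 hv0.le hv2.le hw1
  have hthv := th_mono hC.ne hC.st le_rfl hr1 w v hw.le hv1.le (by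
    have : (v : ℝ) ≤ 1 := by exact_mod_cast hv1'
    exact this)
  obtain ⟨p₁, hp₁⟩ : ∃ p₁, p₁ = Q - (6 * (Q - p) + 9 * h) / c := ⟨_, rfl⟩
  have hp₁c : c * (Q - p₁) = 6 * (Q - p) + 9 * h := by
    rw [hp₁]
    field_simp
    ring
  have hQp : Q - p = δ + h := by rw [hp]; ring
  have hp₁p : p₁ ≤ p := by
    have e1 : Q - p ≤ (6 * (Q - p) + 9 * h) / c := by
      rw [le_div_iff₀ hc]
      nlinarith only [hδ0, hh0, hp, hc, hc2]
    rw [hp₁]
    linarith only [e1]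
  have hp₁e : p₁ = Q - 6 / c * δ - 15 / c * h := by
    rw [hp₁, hQp]
    ring
  have hfin : p₁ ≤ (σ Q).th w' → Q - (6 / c + 1) * δ ≤ (σ Q).th w' + h₀ := by
    intro h1
    have e1 : (6 / c + 1) * δ = 6 / c * δ + δ := by ring
    have e2 : (15 / c + 3) * h = 15 / c * h + 3 * h := by ring
    rw [hp₁e] at h1
    rw [e2] at hh1
    linarith only [hδ0, hh0, hh1, h1]
  refine hfin ?_
  by_cases hcase2 : p₁ ≤ (v : ℝ) + (σ 1).rot v
  · have e1 := htr v hv0 hv2.le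
    refine le_trans (le_min ?_ hcase2) e1
    exact hp₁p.trans hpQ
  push Not at hcase2
  refine le_trans ?_ (th_mono hC.ne hC.st hQ1.le hrQ v w' hv0.le hv2.le hwQ)
  refine le_of_forall_pos_le_add fun x hx => ?_
  have := pu_prod hC hQ0 hQ1.le hQD hQ hv0 hv1' hpQ hp0 (hpth.trans_le hthv) (by linarith only [hcase, hvw', hrv]) hk0
    hkh (lt_of_le_of_lt hrv hrotQ) hcl hp₁c.ge hp₁p hcase2 hx
  linarith only [this]

end Pool.S6C
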