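import Pool.Agent.H7.S6C.Trv

/-!
# PU from the exact planks
-/

set_option autoImplicit false

namespace Pool.S6C

open Finset Real
open Pool.Agent.H49.Ent Pool.Agent.H32.Dense Pool.STK Pool.KA Pool.KSAT Pool.K2S Pool.PB Pool.KS6

/-- **(PU)**, from the exact planks and the activity. -/
theorem pu_of_ust (hA : ACTStmt) (h : USTStmt) : PUStmt := pu_of_triv triv_thm hA h

/-- **(PU)**, from the vertical count and the activity. -/
theorem pu_of_uv (hA : ACTStmt) (h : UVStmt) : PUStmt := pu_of_ust hA (ust_of_uv h)

end Pool.S6C
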