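import Mathlib

/-!
# Chains of steps, averaged over the starting point
-/

set_option autoImplicit false

namespace Pool.S6C

open Finset

/-- If `f w ≤ f (w + h) + g w + c`, then `f wa ≤ f wb + (Σ g) / h + ...`: average over the starting
point of the chain. -/
theorem chain_avg (f g : ℕ → ℝ) {h wa wb : ℕ} {c d : ℝ} (hh : 1 ≤ h) (hw : wa + h ≤ wb)
    (g0 : ∀ w, wa ≤ w → w ≤ wb → 0 ≤ g w) (c0 : 0 ≤ c)
    (step : ∀ w, wa ≤ w → w + h ≤ wb → f w ≤ f (w + h) + g w + c)
    (init : ∀ w, wa ≤ w → w < wa + h → f wa ≤ f w + d)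
    (fin : ∀ w, wa ≤ w → w ≤ wb → wb < w + h → f w ≤ f wb + d) :
    f wa ≤ f wb + (∑ w ∈ Finset.Icc wa wb, g w) / h + ((wb : ℝ) - wa) / h * c + 2 * d := by
  classical
  have hh0 : (0 : ℝ) < h := by exact_mod_cast hh
  obtain ⟨S, hS⟩ : ∃ S, S = ∑ w ∈ Finset.Icc wa wb, g w := ⟨_, rfl⟩
  rw [← hS]
  obtain ⟨G, hG⟩ : ∃ G : ℕ → ℝ, G = fun i =>
      ∑ w ∈ (Finset.Icc wa wb).filter (fun w => (w - wa) % h = i), g w := ⟨_, rfl⟩
  have h1 : ∑ i ∈ Finset.range h, G i = S := by
    rw [hG, hS]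
    refine Finset.sum_fiberwise_of_maps_to (s := Finset.Icc wa wb) (t := Finset.range h)
      (g := fun w => (w - wa) % h) (fun w _ => ?_) g
    exact Finset.mem_range.2 (Nat.mod_lt _ (by omega))
  obtain ⟨i, hi, hGi⟩ : ∃ i ∈ Finset.range h, G i ≤ S / h := by
    refine Finset.exists_le_of_sum_le (Finset.nonempty_range_iff.2 (by omega)) ?_
    rw [h1, Finset.sum_const, Finset.card_range, nsmul_eq_mul]
    rw [mul_div_cancel₀ _ hh0.ne']
  rw [Finset.mem_range] at hi
  obtain ⟨w₀, hw₀⟩ : ∃ w₀, w₀ = wa + i := ⟨_, rfl⟩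
  -- the chain
  have h2 : ∀ k : ℕ, w₀ + k * h ≤ wb →
      f w₀ ≤ f (w₀ + k * h) + ∑ j ∈ Finset.range k, (g (w₀ + j * h) + c) := by
    intro k
    induction k with
    | zero => intro _; simp
    | succ k ih =>
      intro hk
      have e1 : w₀ + (k + 1) * h = w₀ + k * h + h := by ring
      rw [e1] at hk ⊢
      have e2 := ih (by omega)
      have e3 := step (w₀ + k * h) (by omega) hk
      rw [Finset.sum_range_succ]
      linarith
  obtain ⟨K, hK⟩ : ∃ K, K = (wb - w₀) / h := ⟨_, rfl⟩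
  have hK1 : K * h ≤ wb - w₀ := by rw [hK]; exact Nat.div_mul_le_self _ _
  have hK2 : wb - w₀ < K * h + h := by
    rw [hK]
    have := Nat.lt_div_mul_add (a := wb - w₀) (b := h) (by omega)
    exact this
  have h3 := h2 K (by omega)
  have h4 := fin (w₀ + K * h) (by omega) (by omega) (by omega)
  have h5 := init w₀ (by omega) (by omega)
  have h6 : ∑ j ∈ Finset.range K, g (w₀ + j * h) ≤ G i := by
    rw [hG]
    have e : ∑ j ∈ Finset.range K, g (w₀ + j * h) =
        ∑ w ∈ (Finset.range K).image (fun j => w₀ + j * h), g w := by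
      rw [Finset.sum_image]
      intro x _ y _ hxy
      have hxy' : w₀ + x * h = w₀ + y * h := hxy
      have : x * h = y * h := by omega
      exact Nat.eq_of_mul_eq_mul_right (by omega) this
    rw [e]
    refine Finset.sum_le_sum_of_subset_of_nonneg ?_ ?_
    · intro w hw'
      rw [Finset.mem_image] at hw'
      obtain ⟨j, hj, rfl⟩ := hw'
      rw [Finset.mem_range] at hj
      have hjK : j * h ≤ K * h := Nat.mul_le_mul_right h hj.le
      rw [Finset.mem_filter, Finset.mem_Icc]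
      refine ⟨⟨by omega, by omega⟩, ?_⟩
      have e2 : w₀ + j * h - wa = i + j * h := by omega
      rw [e2, Nat.add_mul_mod_self_right]
      exact Nat.mod_eq_of_lt hi
    · intro w hw' _
      rw [Finset.mem_filter, Finset.mem_Icc] at hw'
      exact g0 w hw'.1.1 hw'.1.2
  have h7 : ∑ j ∈ Finset.range K, (g (w₀ + j * h) + c) =
      ∑ j ∈ Finset.range K, g (w₀ + j * h) + K * c := by
    rw [Finset.sum_add_distrib, Finset.sum_const, Finset.card_range, nsmul_eq_mul]
  have h8 : (K : ℝ) * c ≤ ((wb : ℝ) - wa) / h * c := by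
    refine mul_le_mul_of_nonneg_right ?_ c0
    rw [le_div_iff₀ hh0]
    have e3 : K * h + wa ≤ wb := by omega
    have e4 : (K : ℝ) * h + wa ≤ wb := by exact_mod_cast e3
    linarith
  linarith

end Pool.S6C
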