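import Pool.Agent.H77.S6C.Chain
import Pool.Agent.H23.S6E.Vdf

/-!
# The deficit along a path of windows, in one frame
-/

set_option autoImplicit false

namespace Pool.S6C

open Finset Real
open Pool.Agent.H49.Ent Pool.Agent.H32.Dense Pool.STK Pool.KA Pool.K2S Pool.KA.Vd

variable {J : ℕ}

theorem K1_nonneg {B : ℝ} (hB : 1 ≤ B) : 0 ≤ K1 B := by
  unfold K1
  have : 0 ≤ Real.log (6 * B + 3) := Real.log_nonneg (by linarith)
  positivity

/-- **The deficit along a path of windows**: the steps have length `h`, `g w` bounds the deficit of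
the block of `X` digits of both coordinates beyond the box of the window `w`. -/
theorem path_one {F : Fam 3 J} {p : F.Ω → ℝ} (hp : IsLaw p) {σ : Fin 3 → Fin 3}
    {a s t : F.Ω → ℝ} {B : ℝ} (hB : 1 ≤ B)
    (hb : ∀ ω, 0 < p ω → |a ω| ≤ B ∧ |s ω| ≤ B ∧ |t ω| ≤ B) {vp : ℕ → ℕ}
    {wa wb q X h N : ℕ} (mono : ∀ w w', wa ≤ w → w ≤ w' → w' ≤ wb → vp w ≤ vp w')
    (hh : 1 ≤ h) (hw : wa + h ≤ wb)
    (hX : ∀ w, wa ≤ w → w + h ≤ wb → h + vp (w + h) ≤ vp w + X)
    (hN : wb + vp wb + q + X ≤ N) {τ : Type} (Θ : F.Ω → τ) (g : ℕ → ℝ)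
    (g0 : ∀ w, wa ≤ w → w ≤ wb → 0 ≤ g w)
    (hg : ∀ w, wa ≤ w → w ≤ wb → 2 * (X : ℝ) * Real.log 2 -
      CH p (F.sbx σ (w + q + X) (w + vp w + q + X) N a s t)
        (fun ω => (F.sbx σ (w + q) (w + vp w + q) N a s t ω, Θ ω)) ≤ g w) :
    F.vdf p σ (wa + q) (wa + vp wa + q) N a s t Θ ≤
      F.vdf p σ (wb + q) (wb + vp wb + q) N a s t Θ + (∑ w ∈ Finset.Icc wa wb, g w) / h +
        ((wb : ℝ) - wa) / h * K1 B + 2 * (2 * X * Real.log 2 + K1 B) := by
  have hl2 : 0 < Real.log 2 := Real.log_pos (by norm_num)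
  have hK := K1_nonneg hB
  -- moving the box
  have mv : ∀ w w' : ℕ, wa ≤ w → w ≤ w' → w' ≤ wb → (w' - w) + vp w' ≤ vp w + X →
      F.vdf p σ (w + q) (w + vp w + q) N a s t Θ ≤
        F.vdf p σ (w' + q) (w' + vp w' + q) N a s t Θ + (2 * X * Real.log 2 + K1 B) := by
    intro w w' h1 h2 h3 h4
    have m1 := mono w w' h1 h2 h3
    have m2 := mono w' wb (h1.trans h2) h3 le_rfl
    have k1 := vdf_path (σ := σ) (a := a) (s := s) (t := t) (N := N) (r := w + q)
      (U := w + vp w + q) (r' := w' + q) (U' := w' + vp w' + q) hp hB (by omega) (by omega)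
      (by omega) (by omega) hb Θ
    have k2 := CH_nonneg hp.nonneg (F.sbx σ (w' + q) (w' + vp w' + q) N a s t)
      (fun ω => (F.sbx σ (w + q) (w + vp w + q) N a s t ω, Θ ω))
    have e1 : w' - w ≤ X := by omega
    have e2 : w' ≤ w + X := by omega
    have e3 : w' + vp w' ≤ w + vp w + X := by omega
    have r1 : (w' : ℝ) ≤ w + X := by exact_mod_cast e2
    have r2 : (w' : ℝ) + vp w' ≤ w + vp w + X := by exact_mod_cast e3
    have k3 : (((w' + q : ℕ) : ℝ) - (w + q : ℕ) + (((w' + vp w' + q : ℕ) : ℝ) -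
        (w + vp w + q : ℕ))) * Real.log 2 ≤ 2 * X * Real.log 2 := by
      refine mul_le_mul_of_nonneg_right ?_ hl2.le
      push_cast
      linarith
    linarith
  refine chain_avg (fun w => F.vdf p σ (w + q) (w + vp w + q) N a s t Θ) g hh hw g0 hK ?_ ?_ ?_
  · intro w h1 h2
    have m0 := hX w h1 h2
    have m1 := mono w (w + h) h1 (by omega) h2
    have m2 := mono (w + h) wb (by omega) h2 le_rfl
    have m3 := mono w wb h1 (by omega) le_rfl
    have k1 := vdf_path (σ := σ) (a := a) (s := s) (t := t) (N := N) (r := w + q)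
      (U := w + vp w + q) (r' := w + q + X) (U' := w + vp w + q + X) hp hB (by omega) (by omega)
      (by omega) (by omega) hb Θ
    have k2 := vdf_mono (σ := σ) (a := a) (s := s) (t := t) (N := N) hp
      (r := w + h + q) (U := w + h + vp (w + h) + q) (r' := w + q + X) (U' := w + vp w + q + X)
      (by omega) (by omega) Θ
    have k3 := hg w h1 (by omega)
    have e : (((w + q + X : ℕ) : ℝ) - (w + q : ℕ) + (((w + vp w + q + X : ℕ) : ℝ) -
        (w + vp w + q : ℕ))) * Real.log 2 = 2 * X * Real.log 2 := by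
      push_cast
      ring
    rw [e] at k1
    show F.vdf p σ (w + q) (w + vp w + q) N a s t Θ ≤
      F.vdf p σ (w + h + q) (w + h + vp (w + h) + q) N a s t Θ + g w + K1 B
    linarith
  · intro w h1 h2
    have m0 := hX wa le_rfl hw
    have m1 := mono w (wa + h) h1 (by omega) hw
    exact mv wa w le_rfl h1 (by omega) (by omega)
  · intro w h1 h2 h3
    have m0 := hX (wb - h) (by omega) (by omega)
    have e : wb - h + h = wb := by omega
    rw [e] at m0
    have m1 := mono (wb - h) w (by omega) (by omega) h2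
    exact mv w wb h1 h2 le_rfl (by omega)

end Pool.S6C
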