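import Pool.Agent.H24.S6D.Zone
import Pool.Agent.H2.UST.Cls

/-!
# The row of one cell: from the local U-step to deficits of static boxes
-/

set_option autoImplicit false

namespace Pool.S6V

open Finset Real
open Pool.Agent.H49.Ent Pool.Agent.H32.Dense Pool.STK Pool.KA Pool.KSAT Pool.K2S Pool.PB
  Pool.S6U Pool.S6C Pool.S6D Pool.UST Pool.KA.Vd

variable {J : ℕ}

/-- The condition of the result of the U-step determines the condition of the deficit. -/
theorem dfc_le_ocn {F : Fam 3 J} {p : F.Ω → ℝ} (h0 : ∀ ω, 0 ≤ p ω) {σ : Fin 3 → Fin 3}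
    {vp : ℕ → ℕ} {a : ℕ → F.Ω → ℝ} {s t al : F.Ω → ℝ} {κ w q N X Da D : ℕ} {K : Type}
    (Th : F.Ω → K) (hD : Da ≤ D) :
    dfc F p σ X (w + q) (w + vp w + q) N (rnd D al) s t
        (fun ω => (rnd D al ω, (Uni.dg Da al ω, (Th ω, F.W ω)))) ≤
      2 * X * Real.log 2 -
        CH p ((F.cnd Th).sbx σ (w + q + X) (w + vp w + q + X) N (ald D al) s t)
          (ocn (F.cnd Th) σ vp D a s t al κ w q N) := by
  unfold dfc
  have key : CH p ((F.cnd Th).sbx σ (w + q + X) (w + vp w + q + X) N (ald D al) s t)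
      (ocn (F.cnd Th) σ vp D a s t al κ w q N) ≤
      CH p (F.sbx σ (w + q + X) (w + vp w + q + X) N (rnd D al) s t)
        (fun ω => (F.sbx σ (w + q) (w + vp w + q) N (rnd D al) s t ω,
          (rnd D al ω, (Uni.dg Da al ω, (Th ω, F.W ω))))) := by
    have e1 : (F.cnd Th).sbx σ (w + q + X) (w + vp w + q + X) N (ald D al) s t =
        F.sbx σ (w + q + X) (w + vp w + q + X) N (rnd D al) s t := rfl
    rw [e1]
    refine CH_mono_cond h0 ?_
    intro ω ω' _ _ e
    obtain ⟨e2, e3⟩ := (ocn_cnd Th).1 e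
    have e4 := Prod.ext_iff.mp e3
    have e5 := Prod.ext_iff.mp e4.2
    have e6 := Prod.ext_iff.mp e5.2
    have eb : F.sbx σ (w + q) (w + vp w + q) N (rnd D al) s t ω =
        F.sbx σ (w + q) (w + vp w + q) N (rnd D al) s t ω' := e4.1
    have eg : Uni.dg D al ω = Uni.dg D al ω' := e6.1
    have eT : F.T ω = F.T ω' := e6.2
    have ec : F.ctx σ w (w + q) (w + vp w + q) (w + q + κ) (a w) s t ω =
        F.ctx σ w (w + q) (w + vp w + q) (w + q + κ) (a w) s t ω' := e5.1
    have ec' : F.blb w (vpr w (w + q) (w + vp w + q) (w + q + κ))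
        (fun o => tfr σ (a w o) (s o) (t o)) ω =
      F.blb w (vpr w (w + q) (w + vp w + q) (w + q + κ))
        (fun o => tfr σ (a w o) (s o) (t o)) ω' := ec
    have eZ : F.Z ω = F.Z ω' := (Box.mlb_ext ec').2.2.2.2
    have er : rnd D al ω = rnd D al ω' := by
      unfold rnd
      unfold Uni.dg at eg
      rw [eg]
    have ea : Uni.dg Da al ω = Uni.dg Da al ω' := by
      unfold Uni.dg at eg ⊢
      exact fl_lift hD eg
    exact Prod.ext eb (Prod.ext er (Prod.ext ea (Prod.ext e2 (Prod.ext eT eZ))))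
  linarith

end Pool.S6V
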