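import Pool.Agent.H77.S6C.Row0

/-!
# The row of one cell, in a class

`row_cls`: at a window `w₀` where `rot` has the slope `v` and an active place `q₀`, the deficit
beyond the natural boxes changes at most by `η L J` between two windows at distance at most `L` of
`w₀`, for all frames `UFr` of the U-step.
-/

set_option autoImplicit false

namespace Pool.S6V

open Finset Real
open Pool.Agent.H49.Ent Pool.Agent.H32.Dense Pool.STK Pool.KA Pool.KSAT Pool.K2S Pool.PB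
  Pool.S6U Pool.S6C Pool.S6D Pool.UST Pool.KA.Vd

theorem log2_lt : Real.log 2 < 1 := by
  have := Real.log_two_lt_d9
  linarith only [this]

/-- The pieces of an interval of windows. -/
theorem pieces {wa wb g : ℕ} (hg : 1 ≤ g) (h : wa + g ≤ wb) : ∃ (W : ℕ → ℕ) (n : ℕ), 1 ≤ n ∧
    n * g ≤ wb - wa ∧ W 0 = wa ∧ W n = wb ∧ (∀ i < n, W i + g ≤ W (i + 1)) ∧
    (∀ i < n, W (i + 1) ≤ W i + 2 * g) ∧ (∀ i ≤ n, wa ≤ W i ∧ W i ≤ wb) := by
  obtain ⟨n, hn⟩ : ∃ n, n = (wb - wa) / g := ⟨_, rfl⟩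
  have h1 : n * g ≤ wb - wa := by rw [hn]; exact Nat.div_mul_le_self _ _
  have h2 : wb - wa < n * g + g := by
    rw [hn]
    exact Nat.lt_div_mul_add (a := wb - wa) (b := g) (by omega)
  have h3 : 1 ≤ n := by
    rw [hn]
    exact (Nat.one_le_div_iff (by omega)).2 (by omega)
  refine ⟨fun i => if i < n then wa + i * g else wb, n, h3, h1, ?_, ?_, ?_, ?_, ?_⟩
  · simp only [show 0 < n by omega, if_true]
    omega
  · simp
  · intro i hi
    simp only [hi, if_true]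
    by_cases h4 : i + 1 < n
    · rw [if_pos h4]
      have : (i + 1) * g = i * g + g := by ring
      omega
    · rw [if_neg h4]
      have h5 : n = i + 1 := by omega
      rw [h5] at h1
      have : (i + 1) * g = i * g + g := by ring
      omega
  · intro i hi
    simp only [hi, if_true]
    by_cases h4 : i + 1 < n
    · rw [if_pos h4]
      have : (i + 1) * g = i * g + g := by ring
      omega
    · rw [if_neg h4]
      have h5 : n = i + 1 := by omega
      rw [h5] at h2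
      have : (i + 1) * g = i * g + g := by ring
      omega
  · intro i hi
    by_cases h4 : i < n
    · simp only [h4, if_true]
      have h5 : i * g ≤ n * g := Nat.mul_le_mul_right g h4.le
      omega
    · simp only [h4, if_false]
      omega

/-- The numbers of one piece. -/
theorem ueN_piece {J : ℕ} {w₀ v₀ v q₀ L M cw κ e₂ e₂' γ x₁ : ℝ} {n wa wb w1 w2 : ℕ}
    {vp : ℕ → ℕ} {kap Hu HN g ql d x' qa : ℕ} (hv0 : 0 ≤ v) (hL : 0 ≤ L)
    (mono : ∀ w w', wa ≤ w → w ≤ w' → w' ≤ wb → vp w ≤ vp w')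
    (lin : ∀ w, wa ≤ w → w ≤ wb → |(vp w : ℝ) - (v₀ * J + v * (w - w₀ * J))| ≤ e₂' * L * J)
    (he : e₂' ≤ e₂) (h1 : wa ≤ w1) (h2 : w1 + g ≤ w2) (h3 : w2 ≤ w1 + 2 * g) (h4 : w2 ≤ wb)
    (wa1 : (w₀ - L) * J ≤ wa) (wb1 : (wb : ℝ) ≤ (w₀ + L) * J) (hh : vp wb + L * J ≤ kap)
    (room : Room (J := J) wb vp kap Hu HN qa (2 * L * J)) (g1 : cw * L * J ≤ g)
    (qa1 : (q₀ - M * L) * J ≤ qa) (qa2 : (qa : ℝ) ≤ q₀ * J) (ql1 : (ql : ℝ) ≤ M * L * J)
    (hM : M ≤ 1) (d1 : κ * L * J / 2 ≤ d) (d2 : (d : ℝ) ≤ κ * L * J)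
    (nd : ((n * d : ℕ) : ℝ) ≤ γ * ql) (hx' : x₁ * (n * d : ℕ) ≤ x')
    (D2' : v * (2 * g) + 2 * (e₂' * L * J) + x' ≤ γ * ql)
    (rise' : 2 * g + v * (2 * g) + 2 * (e₂' * L * J) ≤ ql) :
    UeN J w₀ v₀ v q₀ L M cw κ e₂ γ x₁ n w1 w2 vp kap Hu HN qa (qa + ql) d (vp w2 + x') := by
  have hJ0 : (0 : ℝ) ≤ J := Nat.cast_nonneg J
  have hLJ : 0 ≤ L * J := mul_nonneg hL hJ0
  have hw12 : w1 ≤ w2 := by omega
  have m1 := mono w1 w2 h1 hw12 h4
  have m2 := mono w2 wb (by omega) h4 le_rfl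
  have m2r : ((vp w2 : ℕ) : ℝ) ≤ vp wb := by exact_mod_cast m2
  have l1 := abs_le.1 (lin w1 h1 (by omega))
  have l2 := abs_le.1 (lin w2 (by omega) h4)
  have w1r : ((wa : ℕ) : ℝ) ≤ w1 := by exact_mod_cast h1
  have w2r : ((w2 : ℕ) : ℝ) ≤ wb := by exact_mod_cast h4
  have h2r : ((w1 : ℕ) : ℝ) + g ≤ w2 := by exact_mod_cast h2
  have h3r : ((w2 : ℕ) : ℝ) ≤ w1 + 2 * g := by exact_mod_cast h3
  have hvd : (vp w2 : ℝ) - vp w1 ≤ v * (2 * g) + 2 * (e₂' * L * J) := by
    have : v * (w2 - w₀ * J) - v * (w1 - w₀ * J) ≤ v * (2 * g) := by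
      have : v * (w2 - w₀ * J) - v * (w1 - w₀ * J) = v * ((w2 : ℝ) - w1) := by ring
      rw [this]
      exact mul_le_mul_of_nonneg_left (by linarith only [h3r]) hv0
    linarith only [l1, l2, this, l1.1, l2.2]
  have hqlM : (ql : ℝ) ≤ L * J := by
    refine ql1.trans ?_
    have : M * L * J = M * (L * J) := by ring
    rw [this]
    nlinarith only [hM, hLJ]
  refine ⟨wa1.trans w1r, w2r.trans wb1, by linarith only [g1, h2r], qa1, ?_, by omega, ?_, ?_, ?_, d1, d2, ?_, ?_,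
    ?_, ?_⟩
  · push_cast
    have : (q₀ + M * L) * J = q₀ * J + M * L * J := by ring
    rw [this]
    linarith only [qa2, ql1]
  · intro w g1 g2
    refine (lin w (by omega) (by omega)).trans ?_
    have : e₂' * L * J = e₂' * (L * J) := by ring
    have h5 : e₂ * L * J = e₂ * (L * J) := by ring
    rw [this, h5]
    exact mul_le_mul_of_nonneg_right he hLJ
  · linarith only [hh, m2r]
  · obtain ⟨r1, r2, r3, r4⟩ := room
    have e1 : 2 * L * (J : ℝ) = L * J + L * J := by ring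
    rw [e1] at r1 r2 r3 r4
    refine ⟨?_, ?_, ?_, ?_⟩
    · push_cast
      linarith only [m2r, hqlM, r1]
    · push_cast
      linarith only [hqlM, r2]
    · push_cast
      linarith only [m2r, w2r, hqlM, r3]
    · push_cast
      linarith only [w2r, hqlM, r4]
  · rw [Nat.add_sub_cancel_left]
    exact nd
  · push_cast
    have := hx'
    push_cast at this
    linarith only [this]
  · rw [Nat.add_sub_cancel_left]
    have : (((vp w2 + x' - vp w1 : ℕ)) : ℝ) = vp w2 + x' - vp w1 := by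
      rw [Nat.cast_sub (by omega)]
      push_cast
      ring
    rw [this]
    linarith only [D2', hvd]
  · rw [Nat.add_sub_cancel_left]
    have e1 : (w2 : ℝ) + vp w2 ≤ w1 + vp w1 + ql := by linarith only [rise', h3r, hvd]
    exact_mod_cast e1

/-- **One rectangle with pieces**, one family. -/
theorem row_fam {J : ℕ} {F : Fam 3 J} {A : F.Ω → Prop} {σ : Fin 3 → Fin 3} {wl wa wb : ℕ}
    {vp : ℕ → ℕ} {kap Hu HN : ℕ} {al nu k b : (Fin 3 → ℤ) × (ℕ × F.ζ) → ℝ}
    {a : ℕ → F.Ω → ℝ} {s t : F.Ω → ℝ} {B C : ℝ}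
    (h : UFr F A σ wl wa wb vp kap Hu HN al nu k b a s t B C) (hA : 0 < Pe F.p A) {K : Type}
    (Th : F.Ω → K) {p : F.Ω → ℝ} (hp : p = Pool.Agent.H49.Ent.cond F.p A True)
    (hst : Det p Th (fun ω => (s ω, t ω))) {al' : F.Ω → ℝ} (hal : al' = fun ω => al (Fam.pt F ω))
    {ε Ch : ℝ} (hε : 0 ≤ ε) {st X x' qa ql N n Da Db : ℕ} {W : ℕ → ℕ} (hW0 : W 0 = wa)
    (hWn : W n = wb) (hW : ∀ i < n, W i ≤ W (i + 1)) (hWb : ∀ i ≤ n, wa ≤ W i ∧ W i ≤ wb)
    (hh : 1 ≤ st) (hql : 1 ≤ ql)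
    (hCh : (X : ℝ) ≤ Ch * st)
    (inc : ∀ w w', wa ≤ w → w ≤ w' → w' ≤ w + st → w' ≤ wb → w' + vp w' ≤ w + vp w + X)
    (hN : wb + vp wb + (qa + ql) ≤ N) (hDa : vp wa ≤ Da) (hDa' : Da ≤ vp wa + x')
    (hDb : vp wb ≤ Db) (hDD : Da ≤ Db)
    (hUs : ∀ i < n, Usm (F.cnd Th) p σ (W i) (W (i + 1)) vp (vp (W (i + 1)) + x') a s t al' kap X
      qa (qa + ql) (fun _ _ => N) ≤ ε * X * ((W (i + 1) + 1 - W i : ℕ) * (ql : ℕ))) :
    F.vdf p σ (wa + qa) (wa + vp wa + qa) N (ald Da al') s t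
        (fun ω => (Uni.dg Da al' ω, (Th ω, F.W ω))) ≤
      F.vdf p σ (wb + qa) (wb + vp wb + qa) N (ald Db al') s t
        (fun ω => (Uni.dg Db al' ω, (Th ω, F.W ω))) +
        (ε * Ch * (wb - wa + n) + (2 * ql + 6 * n * X + x') * Real.log 2 +
          ((wb - wa : ℝ) / st + 2 * n + 1) * K1 (B + 1) +
          (n + 2) * (K1 (B + 1) + (3 : ℕ) * Real.log (6 * (1 + 2) + 3)) +
            Real.log (4 * 1 + 5)) := by
  have hl : IsLaw p := by rw [hp]; exact isLaw_cond F.isLaw hA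
  have hpos : ∀ ω, 0 < p ω → A ω := by
    intro ω hω
    rw [hp] at hω
    have := ((cond_pos_iff F.isLaw.nonneg A True ω).1 hω).2
    simpa using this
  have hB := h.B1
  have mono : ∀ w w', wa ≤ w → w ≤ w' → w' ≤ wb → vp w ≤ vp w' := h.mono
  have near : ∀ (D : ℕ) ω, |ald D al' ω - al' ω| ≤ 1 / 2 ^ D := fun D ω => rnd_near D ω
  have hb : ∀ ω, 0 < p ω → |al' ω| ≤ B := by
    intro ω hω
    rw [hal]
    exact h.bal ω (hpos ω hω)
  have key := rect_zone (F := F) (p := p) (σ := σ) (s := s) (t := t) (B := B + 1) (C := 1)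
    (e := ε) (Ch := Ch) (a₁ := ald Da al') (a₂ := ald Db al') (al := al') (h := st) (X := X)
    (x := x') (qa := qa) (ql := ql) (N := N) (n := n) (vp := vp) (W := W) hl (by linarith only [hB]) le_rfl
    hε (fun ω hω => by
      have h1 := hb ω hω
      have h2 := h.bd ω (hpos ω hω)
      have h3 := near Db ω
      have h4 : (1 : ℝ) / 2 ^ Db ≤ 1 := div_le_self zero_le_one (one_le_pow₀ (by norm_num))
      have h5 := abs_sub_abs_le_abs_sub (ald Db al' ω) (al' ω)
      exact ⟨by linarith only [h1], by linarith only [h1, h3, h4, h5], by linarith only [h2, h2.1], by linarith only [h2, h2.2]⟩)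
    hh hql hCh hW
    (by rw [hW0, hWn]; exact mono)
    (by rw [hW0, hWn]; exact inc)
    (by rw [hWn]; exact hN)
    (fun ω _ => by
      rw [hW0]
      exact (near Da ω).trans (pw_anti hDa zero_le_one))
    (fun ω _ => by
      rw [hWn, abs_sub_comm]
      exact (near Db ω).trans (pw_anti hDb zero_le_one))
    (fun ω => (Uni.dg Da al' ω, (Th ω, F.W ω))) (fun ω => (Uni.dg Db al' ω, (Th ω, F.W ω)))
    (fun ω ω' _ _ e => by
      have e1 := Prod.ext_iff.mp e
      have e2 : Uni.dg Db al' ω = Uni.dg Db al' ω' := e1.1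
      have e3 : Uni.dg Da al' ω = Uni.dg Da al' ω' := by
        unfold Uni.dg at e2 ⊢
        exact fl_lift hDD e2
      exact Prod.ext e3 e1.2)
    (fun ω ω' h1 h2 e => by
      have e1 := Prod.ext_iff.mp e
      have e2 : Uni.dg Da al' ω = Uni.dg Da al' ω' := e1.1
      have e3 := hst ω ω' h1 h2 (Prod.ext_iff.mp e1.2).1
      have e4 := Prod.ext_iff.mp e3
      refine Prod.ext ?_ e3
      simp only [ald, e2])
    (fun ω ω' h1 h2 e => by
      have e1 := Prod.ext_iff.mp e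
      have e2 : Uni.dg Db al' ω = Uni.dg Db al' ω' := e1.1
      have e3 := hst ω ω' h1 h2 (Prod.ext_iff.mp e1.2).1
      have e4 := Prod.ext_iff.mp e3
      refine Prod.ext ?_ e3
      simp only [ald, e2])
    (fun i hi => by
      refine le_trans ?_ (hUs i hi)
      unfold Usm
      refine Finset.sum_le_sum fun y _ => ?_
      refine dfc_le_ocn hl.nonneg Th ?_
      have := mono wa (W (i + 1)) le_rfl (hWb (i + 1) hi).1 (hWb (i + 1) hi).2
      omega)
  rw [hW0, hWn] at key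
  exact key

end Pool.S6V
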