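import Pool.Agent.H77.S6C.Row2
import Pool.Agent.H2.UST.Out
import Pool.Agent.H10.S6U.Uz6

/-!
# The row theorem
-/

set_option autoImplicit false

namespace Pool.S6V

open Pool.UST

theorem row_thm_pos : RowStmt {v | 0 < v} := row_cls us_thm

/-- **The row theorem**, for all velocities. -/
theorem row_thm : RowStmt {v | 0 ≤ v} := row_cls us_all

end Pool.S6V
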